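import Mathlib
import Pool.Agent.W377.FH.HR
import Pool.Agent.W320.FH.BU
import Pool.Agent.W12.FH.WT
import Pool.Agent.W935.FH.LD

/-!
# Counting the vectors which are balanced for few sign vectors
-/

set_option autoImplicit false

namespace Pool.Agent.TH709.NC

open Finset Pool.Agent.W901.FH
open Pool.Agent.H579R2.Spt (sgn par)
open Pool.Agent.W901.AT (pt cor cor_eq exists_column)

variable {m : ℕ}

/-- The number of right predictions minus the number of wrong predictions, for the predictions `a`
(`none` is an abstention) and the true values `v`. -/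
def excess (a : Fin m → Option Bool) (v : Fin m → Bool) : ℤ :=
  ((univ.filter fun j => a j = some (v j)).card : ℤ) -
    ((univ.filter fun j => a j = some (!(v j))).card : ℤ)

lemma excess_sum (a : Fin m → Option Bool) (v : Fin m → Bool) :
    excess a v = ∑ j, pt (a j) (v j) := by
  unfold excess
  rw [card_filter, card_filter]
  push_cast
  rw [← sum_sub_distrib]
  refine sum_congr rfl fun j _ => ?_
  cases a j with
  | none => simp [pt]
  | some b => cases b <;> cases v j <;> simp [pt, sgn]

/-- the product of a prediction and a sign -/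
def mulO (o : Option Bool) (b : Bool) : Option Bool := o.map fun c => !(xor c b)

lemma pt_mulO (o : Option Bool) (b d : Bool) : pt (mulO o b) d = pt o (!(xor b d)) := by
  cases o with
  | none => simp [pt, mulO]
  | some c => cases b <;> cases c <;> cases d <;> simp [pt, mulO, sgn]

/-- **Many balanced vectors.** -/
theorem many_balanced {K t : ℕ} (hLD : LinDisc K (t : ℝ)) (hm : 1 ≤ m)
    (a : Fin K → Fin m → Option Bool) :
    2 ^ m ≤ (4 * m) ^ (K + 1) *
      (univ.filter fun u : Fin m → Bool => ∀ h, |excess (a h) u| < (t : ℤ)).card := by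
  classical
  have hHR : P_HR := W377.FH.hr W320.FH.bu W12.FH.wtt
  have key : ∀ u : Fin m → Bool, ∃ v < (4 * m) ^ (K + 1),
      ∀ h, |excess (a h) (fun j => !(xor (u j) (lb (4 * m) (K + 1) v j)))| < (t : ℤ) := by
    intro u
    obtain ⟨v, hv, hv2⟩ := hHR K m t hLD hm
      (List.ofFn fun h : Fin K => List.ofFn fun j : Fin m => mulO (a h j) (u j)) (by simp)
    refine ⟨v, hv, fun h => ?_⟩
    have h1 := hv2 (List.ofFn fun j : Fin m => mulO (a h j) (u j))
      (List.mem_ofFn.2 ⟨h, rfl⟩) (by simp)
    have h2 : cor (List.ofFn fun j : Fin m => mulO (a h j) (u j)) (wd m (K + 1) v) =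
        excess (a h) (fun j => !(xor (u j) (lb (4 * m) (K + 1) v j))) := by
      have e1 := cor_eq (List.ofFn fun j : Fin m => mulO (a h j) (u j)) (lb (4 * m) (K + 1) v)
      rw [List.length_ofFn] at e1
      unfold wd
      rw [e1, excess_sum, ← Fin.sum_univ_eq_sum_range
        (fun i => pt ((List.ofFn fun j : Fin m => mulO (a h j) (u j)).getD i none)
          (lb (4 * m) (K + 1) v i)) m]
      refine sum_congr rfl fun j _ => ?_
      rw [List.getD_eq_getElem _ _ (by rw [List.length_ofFn]; exact j.isLt), List.getElem_ofFn,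
        pt_mulO]
    rw [h2] at h1
    exact_mod_cast h1
  choose v hv hv2 using key
  have hcard : (univ : Finset (Fin m → Bool)).card ≤ ((range ((4 * m) ^ (K + 1))) ×ˢ
      (univ.filter fun u : Fin m → Bool => ∀ h, |excess (a h) u| < (t : ℤ))).card := by
    refine card_le_card_of_injOn
      (fun u => (v u, fun j => !(xor (u j) (lb (4 * m) (K + 1) (v u) j)))) (fun u _ => ?_)
      (fun u _ u' _ he => ?_)
    · rw [mem_coe, mem_product]
      exact ⟨mem_range.2 (hv u), mem_filter.2 ⟨mem_univ _, hv2 u⟩⟩
    · simp only [Prod.mk.injEq] at he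
      obtain ⟨e1, e2⟩ := he
      funext j
      have e3 := congrFun e2 j
      simp only [e1] at e3
      revert e3
      cases u j <;> cases u' j <;> cases lb (4 * m) (K + 1) (v u') j <;> simp
  rw [card_product, card_range, card_univ, Fintype.card_fun, Fintype.card_bool,
    Fintype.card_fin] at hcard
  exact hcard

/-- The condition on the threshold. -/
theorem exists_const : ∃ C : ℕ, 0 < C ∧ ∀ k t : ℕ,
    (C * 2 ^ k ≤ t ^ 2 ∨ (k + 1) * 2 ^ (k + 1) ≤ t ^ 2) → LinDisc (2 ^ k) (t : ℝ) := by
  obtain ⟨C, hC0, hC⟩ := W935.FH.lda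
  refine ⟨C, hC0, fun k t h => ?_⟩
  rcases h with h | h
  · refine hC (2 ^ k) t Nat.one_le_two_pow (Nat.cast_nonneg _) ?_
    exact_mod_cast h
  · refine W935.FH.ldb k t (Nat.cast_nonneg _) ?_
    exact_mod_cast h

/-- **The free advantage.** -/
theorem free_excess {k t : ℕ} (h : (t - 1) ^ 2 < 2 ^ k) (hm : 2 ^ k ≤ m) :
    ∃ p : Fin (2 ^ k) → Fin m → Option Bool, ∀ v : Fin m → Bool, ∃ h, (t : ℤ) ≤ |excess (p h) v| := by
  refine ⟨fun h j => if (j : ℕ) < 2 ^ k then some (par h j) else none, fun v => ?_⟩
  obtain ⟨y, hy, hy2⟩ := exists_column k (2 ^ k) le_rfl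
    (fun i => if hi : i < m then v ⟨i, hi⟩ else false)
  refine ⟨⟨y, hy⟩, ?_⟩
  have h1 : excess (fun j : Fin m => if (j : ℕ) < 2 ^ k then some (par y j) else none) v =
      ∑ i ∈ range (2 ^ k), sgn (par y i) * sgn (if hi : i < m then v ⟨i, hi⟩ else false) := by
    rw [excess_sum]
    have e1 : ∀ j : Fin m, pt (if (j : ℕ) < 2 ^ k then some (par y j) else none) (v j) =
        (fun i : ℕ => if i < 2 ^ k then sgn (par y i) *
          sgn (if hi : i < m then v ⟨i, hi⟩ else false) else 0) j := by
      intro j
      simp only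
      split_ifs with h1 h2
      · simp [pt]
      · exact absurd j.isLt h2
      · simp [pt]
    rw [sum_congr rfl (fun j _ => e1 j), Fin.sum_univ_eq_sum_range
      (fun i : ℕ => if i < 2 ^ k then sgn (par y i) *
          sgn (if hi : i < m then v ⟨i, hi⟩ else false) else 0) m, ← sum_filter]
    refine sum_congr ?_ fun i _ => rfl
    ext i
    rw [mem_filter, mem_range, mem_range]
    constructor
    · exact fun h => h.2
    · exact fun h => ⟨by omega, h⟩
  have h2 : ((2 : ℤ) ^ k) ≤ (excess (fun j : Fin m =>
      if (j : ℕ) < 2 ^ k then some (par y j) else none) v) ^ 2 := by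
    rw [h1]
    push_cast at hy2
    exact hy2
  show (t : ℤ) ≤ |excess (fun j : Fin m => if (j : ℕ) < 2 ^ k then some (par y j) else none) v|
  set e := excess (fun j : Fin m => if (j : ℕ) < 2 ^ k then some (par y j) else none) v
  by_contra hcon
  push Not at hcon
  have h3 : |e| ≤ ((t - 1 : ℕ) : ℤ) := by omega
  have h4 : e ^ 2 ≤ ((t - 1 : ℕ) : ℤ) ^ 2 := by
    rw [← sq_abs e]
    exact pow_le_pow_left₀ (abs_nonneg _) h3 2
  have h5 : (((t - 1 : ℕ) : ℤ)) ^ 2 < 2 ^ k := by exact_mod_cast h
  linarith

/-! ### balls -/

/-- The number of vectors of `m` bits which agree with a given vector in at least `r` places. -/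
def vol (m r : ℕ) : ℕ := ∑ j ∈ Icc r m, m.choose j

lemma card_ball (p : Fin m → Bool) (r : ℕ) :
    (univ.filter fun u : Fin m → Bool => r ≤ (univ.filter fun j => p j = u j).card).card =
      vol m r := by
  classical
  have h1 : (univ.filter fun u : Fin m → Bool => r ≤ (univ.filter fun j => p j = u j).card).card =
      ((univ : Finset (Fin m)).powerset.filter fun s => r ≤ s.card).card := by
    refine card_bij (fun u _ => univ.filter fun j => p j = u j) (fun u hu => ?_)
      (fun u _ u' _ he => ?_) (fun s hs => ?_)
    · rw [mem_filter] at hu ⊢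
      exact ⟨mem_powerset.2 (subset_univ _), hu.2⟩
    · funext j
      have := congrArg (fun s => j ∈ s) he
      simp only [mem_filter, mem_univ, true_and, eq_iff_iff] at this
      revert this
      cases p j <;> cases u j <;> cases u' j <;> simp
    · rw [mem_filter] at hs
      refine ⟨fun j => if j ∈ s then p j else !(p j), ?_, ?_⟩
      · have e : (univ.filter fun j => p j = if j ∈ s then p j else !(p j)) = s := by
          ext j
          rw [mem_filter]
          by_cases h : j ∈ s
          · simp [h]
          · simp [h]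
        rw [mem_filter, e]
        exact ⟨mem_univ _, hs.2⟩
      · ext j
        rw [mem_filter]
        by_cases h : j ∈ s
        · simp [h]
        · simp [h]
  rw [h1]
  have h2 : ((univ : Finset (Fin m)).powerset.filter fun s => r ≤ s.card) =
      (Icc r m).biUnion fun j => (univ : Finset (Fin m)).powersetCard j := by
    ext s
    rw [mem_filter, mem_biUnion]
    constructor
    · rintro ⟨-, h⟩
      refine ⟨s.card, mem_Icc.2 ⟨h, ?_⟩, mem_powersetCard.2 ⟨subset_univ _, rfl⟩⟩
      have := card_le_univ s
      rwa [Fintype.card_fin] at this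
    · rintro ⟨j, hj, hs⟩
      rw [mem_powersetCard] at hs
      refine ⟨mem_powerset.2 (subset_univ _), ?_⟩
      rw [hs.2]
      exact (mem_Icc.1 hj).1
  rw [h2, card_biUnion]
  · unfold vol
    refine sum_congr rfl fun j _ => ?_
    rw [card_powersetCard, card_univ, Fintype.card_fin]
  · intro i _ j _ hij
    exact (univ : Finset (Fin m)).pairwise_disjoint_powersetCard hij

/-- the vectors far from all of `K` vectors -/
lemma card_far {K : ℕ} (p : Fin K → Fin m → Bool) (r : ℕ) :
    2 ^ m - K * vol m r ≤ (univ.filter fun u : Fin m → Bool =>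
      ∀ h, ¬ r ≤ (univ.filter fun j => p h j = u j).card).card := by
  classical
  have h1 : (univ.filter fun u : Fin m → Bool =>
      ¬ ∀ h, ¬ r ≤ (univ.filter fun j => p h j = u j).card) ⊆
      univ.biUnion fun h : Fin K => univ.filter fun u : Fin m → Bool =>
        r ≤ (univ.filter fun j => p h j = u j).card := by
    intro u hu
    rw [mem_filter] at hu
    push Not at hu
    obtain ⟨-, h, hh⟩ := hu
    exact mem_biUnion.2 ⟨h, mem_univ _, mem_filter.2 ⟨mem_univ _, hh⟩⟩
  have h2 := (card_le_card h1).trans card_biUnion_le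
  simp only [card_ball, sum_const, card_univ, Fintype.card_fin, smul_eq_mul] at h2
  have h3 := card_filter_add_card_filter_not (s := (univ : Finset (Fin m → Bool)))
    (fun u : Fin m → Bool => ∀ h, ¬ r ≤ (univ.filter fun j => p h j = u j).card)
  rw [card_univ, Fintype.card_fun, Fintype.card_bool, Fintype.card_fin] at h3
  omega

/-- **The free covering.** -/
theorem free_cover {K r : ℕ} (hm : 1 ≤ m) (h : m * 2 ^ m ≤ K * vol m r) :
    ∃ p : Fin K → Fin m → Bool, ∀ v : Fin m → Bool, ∃ h,
      r ≤ (univ.filter fun j => p h j = v j).card := by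
  classical
  by_contra hcon
  push Not at hcon
  choose v hv using hcon
  -- count the pairs
  have h1 : ∀ w : Fin m → Bool, (univ.filter fun p : Fin K → Fin m → Bool =>
      ∀ h, (univ.filter fun j => p h j = w j).card < r).card = (2 ^ m - vol m r) ^ K := by
    intro w
    have e1 : (univ.filter fun p : Fin K → Fin m → Bool =>
      ∀ h, (univ.filter fun j => p h j = w j).card < r) =
      Fintype.piFinset fun _ : Fin K => univ.filter fun q : Fin m → Bool =>
        (univ.filter fun j => q j = w j).card < r := by
      ext p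
      simp only [mem_filter, mem_univ, true_and, Fintype.mem_piFinset]
    rw [e1, Fintype.card_piFinset, prod_const, card_univ, Fintype.card_fin]
    congr 1
    have e2 := card_filter_add_card_filter_not (s := (univ : Finset (Fin m → Bool)))
      (fun q : Fin m → Bool => (univ.filter fun j => q j = w j).card < r)
    rw [card_univ, Fintype.card_fun, Fintype.card_bool, Fintype.card_fin] at e2
    have e3 : (univ.filter fun q : Fin m → Bool =>
        ¬ (univ.filter fun j => q j = w j).card < r).card = vol m r := by
      rw [← card_ball w r]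
      congr 1
      ext q
      simp only [mem_filter, mem_univ, true_and, not_lt]
      constructor
      · intro hh
        refine hh.trans (le_of_eq ?_)
        congr 1
        ext j
        simp only [mem_filter, mem_univ, true_and]
        exact eq_comm
      · intro hh
        refine hh.trans (le_of_eq ?_)
        congr 1
        ext j
        simp only [mem_filter, mem_univ, true_and]
        exact eq_comm
    omega
  have h2 : (univ : Finset (Fin K → Fin m → Bool)).card ≤
      ∑ w : Fin m → Bool, (univ.filter fun p : Fin K → Fin m → Bool =>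
      ∀ h, (univ.filter fun j => p h j = w j).card < r).card := by
    rw [← card_sigma]
    refine card_le_card_of_injOn (fun p => ⟨v p, p⟩) (fun p _ => ?_) (fun p _ p' _ he => ?_)
    · rw [mem_coe, mem_sigma]
      exact ⟨mem_univ _, mem_filter.2 ⟨mem_univ _, hv p⟩⟩
    · simp only [Sigma.mk.injEq] at he
      exact eq_of_heq he.2
  simp only [h1, sum_const, card_univ, Fintype.card_fun, Fintype.card_bool, Fintype.card_fin,
    smul_eq_mul] at h2
  -- the inequality
  have hV : vol m r ≤ 2 ^ m := by
    have e := card_ball (fun _ : Fin m => false) r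
    rw [← e]
    refine (card_le_univ _).trans (le_of_eq ?_)
    rw [Fintype.card_fun, Fintype.card_bool, Fintype.card_fin]
  have hK : 0 < K := by
    rcases Nat.eq_zero_or_pos K with rfl | hK
    · rw [Nat.zero_mul] at h
      have : 0 < m * 2 ^ m := by positivity
      omega
    · exact hK
  have h3 : ((2 : ℝ) ^ m) ^ K ≤ 2 ^ m * ((2 : ℝ) ^ m - vol m r) ^ K := by
    have e : (((2 ^ m - vol m r : ℕ)) : ℝ) = (2 : ℝ) ^ m - vol m r := by
      rw [Nat.cast_sub hV]
      push_cast
      rfl
    rw [← e]
    exact_mod_cast h2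
  set V : ℝ := (vol m r : ℝ) with hVdef
  set N : ℝ := (2 : ℝ) ^ m with hN
  have hN0 : 0 < N := by positivity
  have h4 : N - V ≤ N * Real.exp (-(V / N)) := by
    have := Real.add_one_le_exp (-(V / N))
    have e : N * (-(V / N) + 1) = N - V := by field_simp; ring
    rw [← e]
    exact mul_le_mul_of_nonneg_left this hN0.le
  have h5 : 0 ≤ N - V := by
    have : V ≤ N := by
      rw [hVdef, hN]
      exact_mod_cast hV
    linarith
  have h6 : (N - V) ^ K ≤ N ^ K * Real.exp (-(K * V / N)) := by
    calc (N - V) ^ K ≤ (N * Real.exp (-(V / N))) ^ K := pow_le_pow_left₀ h5 h4 K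
      _ = N ^ K * Real.exp (-(K * V / N)) := by
        rw [mul_pow, ← Real.exp_nat_mul]
        congr 2
        ring
  have h7 : (m : ℝ) ≤ K * V / N := by
    rw [le_div_iff₀ hN0, hVdef, hN]
    exact_mod_cast h
  have h8 : Real.exp (-(K * V / N)) ≤ Real.exp (-(m : ℝ)) := Real.exp_le_exp.2 (by linarith)
  have h9 : N * Real.exp (-(m : ℝ)) < 1 := by
    have e1 : (2 : ℝ) < Real.exp 1 := by
      have := Real.exp_one_gt_d9
      linarith
    have e2 : N < Real.exp m := by
      rw [hN]
      calc (2 : ℝ) ^ m < Real.exp 1 ^ m := pow_lt_pow_left₀ e1 (by norm_num) (by omega)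
        _ = Real.exp m := by rw [← Real.exp_nat_mul, mul_one]
    rw [Real.exp_neg, ← div_eq_mul_inv, div_lt_one (Real.exp_pos _)]
    exact e2
  have h10 : N ^ K ≤ N ^ K * (N * Real.exp (-(m : ℝ))) := by
    calc N ^ K ≤ N * (N - V) ^ K := h3
      _ ≤ N * (N ^ K * Real.exp (-(m : ℝ))) :=
        mul_le_mul_of_nonneg_left (h6.trans (mul_le_mul_of_nonneg_left h8 (by positivity))) hN0.le
      _ = N ^ K * (N * Real.exp (-(m : ℝ))) := by ring
  have h11 : N ^ K * (N * Real.exp (-(m : ℝ))) < N ^ K * 1 :=
    mul_lt_mul_of_pos_left h9 (by positivity)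
  rw [mul_one] at h11
  exact absurd h10 (not_le.2 h11)

end Pool.Agent.TH709.NC
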