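import Mathlib
import Pool.Agent.W901.NU.Pot

/-!
# Tests which exclude a fraction of the value vectors give predictors with majority voting
-/

set_option autoImplicit false

namespace Pool.Agent.TH709.NC

open Finset Pool.Agent.W901.NU

/-- the sign of a bit -/
def sg (b : Bool) : ℝ := if b = true then 1 else -1

lemma sg_abs (b : Bool) : |sg b| = 1 := by
  cases b <;> simp [sg]

lemma sg_sq (b : Bool) : sg b * sg b = 1 := by
  cases b <;> simp [sg]

lemma sg_mul (a b : Bool) : sg a * sg b = sg (xor (!a) b) := by
  cases a <;> cases b <;> simp [sg]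

section

variable {m : ℕ}

/-- true values below `k`, random values from `k` on -/
def hyb (v u : Fin m → Bool) (k : ℕ) : Fin m → Bool := fun j => if (j : ℕ) < k then v j else u j

lemma hyb_zero (v u : Fin m → Bool) : hyb v u 0 = u := by
  funext j
  simp [hyb]

lemma hyb_last (v u : Fin m → Bool) : hyb v u m = v := by
  funext j
  simp [hyb]

lemma hyb_succ (v u : Fin m → Bool) (t : Fin m) :
    hyb v u (t + 1) = Function.update (hyb v u t) t (v t) := by
  funext j
  unfold hyb
  by_cases h : j = t
  · subst h
    simp
  · have h1 : (j : ℕ) ≠ t := fun e => h (Fin.ext e)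
    rw [Function.update_of_ne h]
    by_cases h2 : (j : ℕ) < t
    · rw [if_pos h2, if_pos (by omega)]
    · rw [if_neg h2, if_neg (by omega)]

lemma hyb_update (v u : Fin m → Bool) (t : Fin m) (b : Bool) :
    hyb v (Function.update u t b) t = Function.update (hyb v u t) t b := by
  funext j
  unfold hyb
  by_cases h : j = t
  · subst h
    simp
  · rw [Function.update_of_ne h, Function.update_of_ne h]

lemma hyb_congr {v v' : Fin m → Bool} (u : Fin m → Bool) (t : ℕ)
    (h : ∀ j : Fin m, (j : ℕ) < t → v j = v' j) : hyb v u t = hyb v' u t := by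
  funext j
  unfold hyb
  by_cases h2 : (j : ℕ) < t
  · rw [if_pos h2, if_pos h2, h j h2]
  · rw [if_neg h2, if_neg h2]

/-- averaging over one coordinate -/
lemma sum_update (F : (Fin m → Bool) → ℝ) (t : Fin m) :
    ∑ u, (F (Function.update u t true) + F (Function.update u t false)) = 2 * ∑ u, F u := by
  have hinv : Function.Involutive (fun u : Fin m → Bool => Function.update u t (!(u t))) := by
    intro u
    simp
  have h1 : ∑ u : Fin m → Bool, F (Function.update u t (!(u t))) = ∑ u, F u :=
    Equiv.sum_comp hinv.toPerm F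
  have h2 : ∀ u : Fin m → Bool, F (Function.update u t true) + F (Function.update u t false) =
      F u + F (Function.update u t (!(u t))) := by
    intro u
    cases hu : u t with
    | true =>
      have : Function.update u t true = u := by rw [← hu]; exact Function.update_eq_self t u
      rw [this]
      simp
    | false =>
      have : Function.update u t false = u := by rw [← hu]; exact Function.update_eq_self t u
      rw [this]
      simp [add_comm]
  rw [sum_congr rfl (fun u _ => h2 u), sum_add_distrib, h1]
  ring

/-- the value `1` or `0` -/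
def ind (b : Bool) : ℝ := if b = true then 1 else 0

lemma ind_eq (b : Bool) : ind b = (1 + sg b) / 2 := by
  cases b <;> simp [ind, sg]

/-- one step of the hybrid argument -/
lemma step (T : (Fin m → Bool) → Bool) (v : Fin m → Bool) (t : Fin m) :
    4 * (∑ u, ind (T (hyb v u (t + 1))) - ∑ u, ind (T (hyb v u t))) =
      ∑ u : Fin m → Bool, ∑ b : Bool,
        sg (v t) * (sg b * sg (T (Function.update (hyb v u t) t b))) := by
  have h1 := sum_update (fun u => ind (T (hyb v u t))) t
  simp only [hyb_update] at h1
  have h2 : 4 * (∑ u, ind (T (hyb v u (t + 1))) - ∑ u, ind (T (hyb v u t))) =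
      ∑ u : Fin m → Bool, (4 * ind (T (Function.update (hyb v u t) t (v t))) -
        2 * (ind (T (Function.update (hyb v u t) t true)) +
          ind (T (Function.update (hyb v u t) t false)))) := by
    rw [sum_sub_distrib, ← mul_sum, ← mul_sum, h1]
    simp only [hyb_succ]
    ring
  rw [h2]
  refine sum_congr rfl fun u _ => ?_
  rw [Fintype.sum_bool]
  simp only [ind_eq]
  have e1 : sg true = 1 := rfl
  have e2 : sg false = -1 := by simp [sg]
  rw [e1, e2]
  cases v t
  · rw [e2]
    ring
  · rw [e1]
    ring

/-- the sum of all steps -/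
lemma total (T : (Fin m → Bool) → Bool) (v : Fin m → Bool) (hv : T v = true) :
    ∑ t : Fin m, (∑ u, ind (T (hyb v u (t + 1))) - ∑ u, ind (T (hyb v u t))) =
      ((univ.filter fun u : Fin m → Bool => T u = false).card : ℝ) := by
  rw [Fin.sum_univ_eq_sum_range
    (fun t => (∑ u, ind (T (hyb v u (t + 1))) - ∑ u, ind (T (hyb v u t)))) m,
    Finset.sum_range_sub (fun t => ∑ u, ind (T (hyb v u t))) m]
  have h1 : ∑ u : Fin m → Bool, ind (T (hyb v u m)) = ∑ u : Fin m → Bool, (1 : ℝ) := by
    refine sum_congr rfl fun u _ => ?_
    rw [hyb_last, hv]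
    simp [ind]
  have h2 : ∑ u : Fin m → Bool, ind (T (hyb v u 0)) =
      ∑ u : Fin m → Bool, (1 - (if T u = false then (1 : ℝ) else 0)) := by
    refine sum_congr rfl fun u _ => ?_
    rw [hyb_zero]
    cases T u <;> simp [ind]
  rw [h1, h2, sum_sub_distrib, card_filter]
  push_cast
  ring

end

/-- **From tests to voting.** Let `T` be a test which accepts, for every list `x` of `m` inputs, the
vector of the values of `f`, and which rejects at least the fraction `1 / D` of all vectors. Then
`f` is the majority vote of `L` functions, each obtained from `T` by fixing all but one input of the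
list and all entries of the vector, and perhaps negating. -/
theorem vote {α : Type} [Fintype α] [DecidableEq α] (hne : Nonempty α) {m D : ℕ} (hm : 0 < m)
    (hD : 0 < D) (f : α → Bool) (T : (Fin m → α) → (Fin m → Bool) → Bool)
    (h1 : ∀ x, T x (fun j => f (x j)) = true)
    (h2 : ∀ x, 2 ^ m ≤ D * (univ.filter fun u : Fin m → Bool => T x u = false).card) (L : ℕ)
    (hL : (Fintype.card α : ℝ) < Real.exp (L * (1 / ((m : ℝ) * D)) ^ 2 / 8)) :
    ∃ (t : Fin L → Fin m) (z : Fin L → Fin m → α) (W : Fin L → Fin m → Bool) (b : Fin L → Bool),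
      ∀ a, f a = decide (L / 2 + 1 ≤ (univ.filter fun l : Fin L =>
        xor (b l) (T (Function.update (z l) (t l) a) (W l)) = true).card) := by
  classical
  have hmR : (0 : ℝ) < m := by exact_mod_cast hm
  have hDR : (0 : ℝ) < D := by exact_mod_cast hD
  set γ : ℝ := 1 / ((m : ℝ) * D) with hγ
  have hγ0 : 0 < γ := by positivity
  have hγ1 : γ ≤ 1 := by
    rw [hγ, div_le_one (by positivity)]
    have e1 : (1 : ℝ) ≤ m := by exact_mod_cast hm
    have e2 : (1 : ℝ) ≤ D := by exact_mod_cast hD
    nlinarith
  set 𝒢 : Set (α → ℝ) := {g | ∃ (t : Fin m) (z : Fin m → α) (W : Fin m → Bool) (b : Bool),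
    g = fun a => sg (xor b (T (Function.update z t a) W))} with h𝒢
  have hweak : ∀ w : α → ℝ, (∀ a, 0 < w a) →
      ∃ g ∈ 𝒢, γ * (∑ a, w a) ≤ ∑ a, w a * (sg (f a) * g a) := by
    intro w hw
    have hW : 0 < ∑ a, w a := sum_pos (fun a _ => hw a) (univ_nonempty_iff.2 hne)
    set φ : Fin m → (Fin m → α) → ℝ := fun t x =>
      (1 / 2 ^ m) * ∑ u : Fin m → Bool, ∑ b : Bool, sg (f (x t)) *
        (sg b * sg (T x (Function.update (hyb (fun j => f (x j)) u t) t b))) with hφ
    have hsum : ∀ x, (2 * γ) * m ≤ ∑ t, φ t x := by
      intro x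
      have e1 : ∑ t, φ t x = (1 / 2 ^ m) * (4 *
          ((univ.filter fun u : Fin m → Bool => T x u = false).card : ℝ)) := by
        rw [← total (T x) (fun j => f (x j)) (h1 x), mul_sum, mul_sum]
        refine sum_congr rfl fun t _ => ?_
        rw [step (T x) (fun j => f (x j)) t]
      rw [e1]
      have e2 : ((2 : ℝ) ^ m) ≤ D *
          ((univ.filter fun u : Fin m → Bool => T x u = false).card : ℝ) := by
        exact_mod_cast h2 x
      have e3 : (2 * γ) * m = 2 / D := by
        rw [hγ]
        field_simp
      rw [e3, div_le_iff₀ hDR]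
      have e4 : (0 : ℝ) < 2 ^ m := by positivity
      have e5 : 1 / 2 ^ m * (4 *
          ((univ.filter fun u : Fin m → Bool => T x u = false).card : ℝ)) * D =
          (1 / 2 ^ m) * (4 * (D *
          ((univ.filter fun u : Fin m → Bool => T x u = false).card : ℝ))) := by ring
      rw [e5]
      have e6 : (1 / 2 ^ m : ℝ) * (4 * 2 ^ m) = 4 := by
        field_simp
      have e7 := mul_le_mul_of_nonneg_left (mul_le_mul_of_nonneg_left e2
        (by norm_num : (0 : ℝ) ≤ 4)) (by positivity : (0 : ℝ) ≤ 1 / 2 ^ m)
      linarith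
    obtain ⟨t, z, hz⟩ := exists_position hm w hw hne φ (2 * γ) hsum
    by_contra hcon
    push Not at hcon
    have hlt : ∀ (u : Fin m → Bool) (b : Bool), ∑ a, w a * (sg (f a) *
        (sg b * sg (T (Function.update z t a)
          (Function.update (hyb (fun j => f (z j)) u t) t b)))) < γ * ∑ a, w a := by
      intro u b
      refine lt_of_eq_of_lt ?_ (hcon (fun a => sg (xor (!b) (T (Function.update z t a)
        (Function.update (hyb (fun j => f (z j)) u t) t b)))) ⟨t, z, _, !b, rfl⟩)
      refine sum_congr rfl fun a _ => ?_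
      rw [sg_mul]
    have hexp : ∑ a, w a * φ t (Function.update z t a) =
        (1 / 2 ^ m) * ∑ u : Fin m → Bool, ∑ b : Bool, ∑ a, w a * (sg (f a) *
        (sg b * sg (T (Function.update z t a)
          (Function.update (hyb (fun j => f (z j)) u t) t b)))) := by
      have e1 : ∀ a, w a * φ t (Function.update z t a) = (1 / 2 ^ m) *
          ∑ u : Fin m → Bool, ∑ b : Bool, w a * (sg (f a) *
        (sg b * sg (T (Function.update z t a)
          (Function.update (hyb (fun j => f (z j)) u t) t b)))) := by
        intro a
        rw [hφ]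
        simp only
        rw [mul_left_comm, mul_sum]
        congr 1
        refine sum_congr rfl fun u _ => ?_
        rw [mul_sum]
        refine sum_congr rfl fun b _ => ?_
        have e2 : hyb (fun j => f (Function.update z t a j)) u t = hyb (fun j => f (z j)) u t := by
          refine hyb_congr u t fun j hj => ?_
          rw [Function.update_of_ne (fun e => by rw [e] at hj; exact lt_irrefl _ hj)]
        rw [e2, Function.update_self]
      rw [sum_congr rfl (fun a _ => e1 a), ← mul_sum, sum_comm]
      congr 1
      refine sum_congr rfl fun u _ => ?_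
      rw [sum_comm]
    rw [hexp] at hz
    have hup : ∑ u : Fin m → Bool, ∑ b : Bool, ∑ a, w a * (sg (f a) *
        (sg b * sg (T (Function.update z t a)
          (Function.update (hyb (fun j => f (z j)) u t) t b)))) <
        ∑ u : Fin m → Bool, ∑ b : Bool, (γ * ∑ a, w a) :=
      sum_lt_sum_of_nonempty univ_nonempty fun u _ =>
        sum_lt_sum_of_nonempty univ_nonempty fun b _ => hlt u b
    have hcst : ∑ u : Fin m → Bool, ∑ b : Bool, (γ * ∑ a, w a) =
        2 ^ m * (2 * (γ * ∑ a, w a)) := by
      rw [sum_const, sum_const, card_univ, card_univ, nsmul_eq_mul, nsmul_eq_mul]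
      simp
    rw [hcst] at hup
    have h3 := mul_lt_mul_of_pos_left hup (by positivity : (0 : ℝ) < 1 / 2 ^ m)
    have h4 : (1 / 2 ^ m : ℝ) * (2 ^ m * (2 * (γ * ∑ a, w a))) = 2 * γ * ∑ a, w a := by
      field_simp
    rw [h4] at h3
    exact absurd hz (not_le.2 h3)
  obtain ⟨gs, g1, g2, g3⟩ := exists_boost hne (fun a => sg (f a)) (fun a => sg_abs _) 𝒢 γ hγ0 hγ1
    (fun g hg a => by
      obtain ⟨t, z, W, b, rfl⟩ := hg
      exact (sg_abs _).le) hweak L hL
  have hmem : ∀ l : Fin L, gs.get (l.cast g1.symm) ∈ 𝒢 := fun l => g2 _ (List.get_mem _ _)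
  choose t z W b hb using hmem
  refine ⟨t, z, W, b, fun a => ?_⟩
  have hpos := g3 a
  have hsum : (gs.map (fun g => sg (f a) * g a)).sum =
      sg (f a) * ∑ l : Fin L, sg (xor (b l) (T (Function.update (z l) (t l) a) (W l))) := by
    have e1 : (gs.map (fun g => sg (f a) * g a)).sum =
        ∑ l : Fin L, sg (f a) * (gs.get (l.cast g1.symm)) a := by
      subst g1
      rw [← List.sum_ofFn]
      congr 1
      conv_lhs => rw [← List.ofFn_get gs]
      rw [List.map_ofFn]
      rfl
    rw [e1, mul_sum]
    refine sum_congr rfl fun l _ => ?_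
    rw [hb l]
  rw [hsum] at hpos
  set N := (univ.filter fun l : Fin L =>
    xor (b l) (T (Function.update (z l) (t l) a) (W l)) = true).card with hN
  have hcount : ∑ l : Fin L, sg (xor (b l) (T (Function.update (z l) (t l) a) (W l))) =
      2 * (N : ℝ) - L := by
    have e1 : ∀ l : Fin L, sg (xor (b l) (T (Function.update (z l) (t l) a) (W l))) =
        2 * (if xor (b l) (T (Function.update (z l) (t l) a) (W l)) = true then (1 : ℝ) else 0)
          - 1 := by
      intro l
      unfold sg
      split_ifs <;> ring
    rw [sum_congr rfl (fun l _ => e1 l), sum_sub_distrib, ← mul_sum, hN, card_filter]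
    push_cast
    simp
  rw [hcount] at hpos
  cases hfa : f a with
  | true =>
    rw [hfa] at hpos
    simp only [sg, if_true, one_mul] at hpos
    have h3 : (L : ℝ) < 2 * N := by linarith
    have h4 : L < 2 * N := by exact_mod_cast h3
    rw [decide_eq_true]
    omega
  | false =>
    rw [hfa] at hpos
    have h3 : (2 : ℝ) * N < L := by
      simp only [sg] at hpos
      norm_num at hpos
      linarith
    have h4 : 2 * N < L := by exact_mod_cast h3
    rw [eq_comm, decide_eq_false_iff_not]
    omega

end Pool.Agent.TH709.NC
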