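import Mathlib
import Pool.Agent.W953.FN.Win

/-!
# Functions with formulas of small depth
-/

set_option autoImplicit false

namespace Pool.Agent.TH709.NC

open Finset Pool.Agent.H540R2 Pool.Agent.W953.NW Pool.Agent.W953.FN

variable {n m : ℕ}

/-- `f` has a formula of depth at most `d` -/
def DF (f : BF n) (d : ℕ) : Prop := ∃ φ : Formula n, φ.depth ≤ d ∧ ∀ x, φ.eval x = f x

lemma DF.mono {f : BF n} {d e : ℕ} (h : DF f d) (hde : d ≤ e) : DF f e := by
  obtain ⟨φ, h1, h2⟩ := h
  exact ⟨φ, h1.trans hde, h2⟩

lemma DF.congr {f g : BF n} {d : ℕ} (h : DF f d) (hg : ∀ x, f x = g x) : DF g d := by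
  obtain ⟨φ, h1, h2⟩ := h
  exact ⟨φ, h1, fun x => (h2 x).trans (hg x)⟩

lemma DF.var (i : Fin n) : DF (fun x : Fin n → Bool => x i) 0 := ⟨.var i, le_rfl, fun _ => rfl⟩

lemma DF.const (b : Bool) : DF (fun _ : Fin n → Bool => b) 0 := ⟨.const b, le_rfl, fun _ => rfl⟩

lemma DF.and {f g : BF n} {d : ℕ} (hf : DF f d) (hg : DF g d) :
    DF (fun x => f x && g x) (d + 1) := by
  obtain ⟨φ, h1, h2⟩ := hf
  obtain ⟨ψ, h3, h4⟩ := hg
  refine ⟨.and φ ψ, ?_, fun x => ?_⟩
  · simp only [Formula.depth]
    omega
  · simp only [Formula.eval, h2, h4]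

lemma DF.or {f g : BF n} {d : ℕ} (hf : DF f d) (hg : DF g d) :
    DF (fun x => f x || g x) (d + 1) := by
  obtain ⟨φ, h1, h2⟩ := hf
  obtain ⟨ψ, h3, h4⟩ := hg
  refine ⟨.or φ ψ, ?_, fun x => ?_⟩
  · simp only [Formula.depth]
    omega
  · simp only [Formula.eval, h2, h4]

lemma DF.not {f : BF n} {d : ℕ} (hf : DF f d) : DF (fun x => !(f x)) (d + 1) := by
  obtain ⟨φ, h1, h2⟩ := hf
  refine ⟨.not φ, ?_, fun x => ?_⟩
  · simp only [Formula.depth]
    omega
  · simp only [Formula.eval, h2]

/-- exclusive or with a constant -/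
lemma DF.xorc {f : BF n} {d : ℕ} (hf : DF f d) (b : Bool) : DF (fun x => xor b (f x)) (d + 1) := by
  cases b with
  | false => exact (hf.mono (Nat.le_succ d)).congr fun x => by simp
  | true => exact hf.not.congr fun x => by simp

/-- exclusive or -/
lemma DF.xor {f g : BF n} {d : ℕ} (hf : DF f d) (hg : DF g d) :
    DF (fun x => xor (f x) (g x)) (d + 3) := by
  refine ((((hf.mono (Nat.le_succ d)).and hg.not)).or ((hf.not).and (hg.mono (Nat.le_succ d)))).congr
    fun x => ?_
  cases f x <;> cases g x <;> rfl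

/-- substitution -/
def subst (g : Fin m → Formula n) : Formula m → Formula n
  | .var i => g i
  | .const b => .const b
  | .and φ ψ => .and (subst g φ) (subst g ψ)
  | .or φ ψ => .or (subst g φ) (subst g ψ)
  | .not φ => .not (subst g φ)

lemma subst_depth (g : Fin m → Formula n) (D : ℕ) (hg : ∀ i, (g i).depth ≤ D) (φ : Formula m) :
    (subst g φ).depth ≤ D + φ.depth := by
  induction φ with
  | var i => simpa [subst, Formula.depth] using hg i
  | const b => simp [subst, Formula.depth]
  | and φ ψ h1 h2 => simp only [subst, Formula.depth]; omega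
  | or φ ψ h1 h2 => simp only [subst, Formula.depth]; omega
  | not φ h1 => simp only [subst, Formula.depth]; omega

lemma subst_eval (g : Fin m → Formula n) (φ : Formula m) (x : Fin n → Bool) :
    (subst g φ).eval x = φ.eval (fun i => (g i).eval x) := by
  induction φ with
  | var i => rfl
  | const b => rfl
  | and φ ψ h1 h2 => simp only [subst, Formula.eval, h1, h2]
  | or φ ψ h1 h2 => simp only [subst, Formula.eval, h1, h2]
  | not φ h1 => simp only [subst, Formula.eval, h1]

/-- composition -/
lemma DF.comp {F : BF m} {d : ℕ} (hF : DF F d) {g : Fin m → BF n} {e : ℕ}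
    (hg : ∀ i, DF (g i) e) : DF (fun x => F (fun i => g i x)) (e + d) := by
  obtain ⟨φ, h1, h2⟩ := hF
  choose ψ h3 h4 using hg
  refine ⟨subst ψ φ, (subst_depth ψ e h3 φ).trans (by omega), fun x => ?_⟩
  rw [subst_eval, h2]
  congr 1
  funext i
  exact h4 i x

/-- composition with variables and constants -/
lemma DF.comp0 {F : BF m} {d : ℕ} (hF : DF F d) {g : Fin m → BF n}
    (hg : ∀ i, DF (g i) 0) : DF (fun x => F (fun i => g i x)) d :=
  (hF.comp hg).mono (by omega)

lemma unf_spec' (C : Circuit n) (i : ℕ) (hi : i < C.size) :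
    (unf C i).depth ≤ C.gateDepth i ∧ ∀ x, (unf C i).eval x = C.val x i := by
  induction i using Nat.strong_induction_on with
  | _ i ih =>
    have hnode : ∀ a : Node n, (∀ j, a.wires j ≠ 0 → j < i) →
        (nodeF (fun j => if j < i then unf C j else .const false) a).depth ≤
          a.depth (fun j => if j < i then C.gateDepth j else 0) ∧
        ∀ x, (nodeF (fun j => if j < i then unf C j else .const false) a).eval x =
          a.eval x (fun j => if j < i then C.val x j else false) := by
      intro a ha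
      cases a with
      | var v => exact ⟨le_rfl, fun _ => rfl⟩
      | const b => exact ⟨le_rfl, fun _ => rfl⟩
      | gate j =>
        have hj : j < i := ha j (by simp [Node.wires])
        simp only [nodeF, Node.depth, Node.eval, if_pos hj]
        exact ih j hj (by omega)
    have hd : C.gateDepth i = (C.gate i).depth (fun j => if j < i then C.gateDepth j else 0) := by
      rw [Circuit.gateDepth]
      simp only [dite_eq_ite]
    have hv : ∀ x, C.val x i = (C.gate i).eval x (fun j => if j < i then C.val x j else false) := by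
      intro x
      rw [Circuit.val]
      simp only [dite_eq_ite]
    have hw := C.gate_lt i hi
    rw [unf_eq, hd]
    simp only [hv]
    cases hg : C.gate i with
    | and a b =>
      rw [hg] at hw
      obtain ⟨a2, a3⟩ := hnode a (fun j hj => hw j (by simp only [Gate.wires]; omega))
      obtain ⟨b2, b3⟩ := hnode b (fun j hj => hw j (by simp only [Gate.wires]; omega))
      refine ⟨?_, fun x => ?_⟩
      · simp only [gateF, Formula.depth, Gate.depth]
        omega
      · simp only [gateF, Formula.eval, Gate.eval, a3, b3]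
    | or a b =>
      rw [hg] at hw
      obtain ⟨a2, a3⟩ := hnode a (fun j hj => hw j (by simp only [Gate.wires]; omega))
      obtain ⟨b2, b3⟩ := hnode b (fun j hj => hw j (by simp only [Gate.wires]; omega))
      refine ⟨?_, fun x => ?_⟩
      · simp only [gateF, Formula.depth, Gate.depth]
        omega
      · simp only [gateF, Formula.eval, Gate.eval, a3, b3]
    | not a =>
      rw [hg] at hw
      obtain ⟨a2, a3⟩ := hnode a (fun j hj => hw j (by simp only [Gate.wires]; omega))
      refine ⟨?_, fun x => ?_⟩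
      · simp only [gateF, Formula.depth, Gate.depth]
        omega
      · simp only [gateF, Formula.eval, Gate.eval, a3]

/-- From circuits to formulas. -/
theorem DF.of_circuit (C : Circuit n) : DF C.eval C.depth := by
  cases ho : C.out with
  | var v =>
    exact ⟨.var v, Nat.zero_le _, fun x => by unfold Circuit.eval; rw [ho]; rfl⟩
  | const b =>
    exact ⟨.const b, Nat.zero_le _, fun x => by unfold Circuit.eval; rw [ho]; rfl⟩
  | gate j =>
    have hj : j < C.size := C.out_lt j (by rw [ho]; simp [Node.wires])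
    obtain ⟨g2, g3⟩ := unf_spec' C j hj
    refine ⟨unf C j, g2.trans ?_, fun x => ?_⟩
    · have : C.depth = C.gateDepth j := by
        unfold Circuit.depth
        rw [ho]
        rfl
      omega
    · rw [g3]
      unfold Circuit.eval
      rw [ho]
      rfl

/-- From formulas to circuits. -/
theorem DF.circuit {f : BF n} {d : ℕ} (h : DF f d) : ∃ C : Circuit n, C.size ≤ 2 ^ d ∧
    C.depth ≤ d ∧ ∀ x, C.eval x = f x := by
  obtain ⟨φ, h1, h2⟩ := h
  obtain ⟨C, c1, c2, c3⟩ := circuit_of φ
  exact ⟨C, c1.trans (Nat.pow_le_pow_right (by norm_num) h1), c2.trans h1,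
    fun x => (c3 x).trans (h2 x)⟩

/-- Thresholds of functions. -/
theorem DF.count {g : Fin m → BF n} {e : ℕ} (hg : ∀ i, DF (g i) e) (k : ℕ) :
    DF (fun x => decide (k ≤ (univ.filter fun i : Fin m => g i x = true).card))
      (e + (12 * Nat.log 2 m + 18)) := by
  obtain ⟨τ, -, t2, t3⟩ := of_mc (thr_mc (n := m) k)
  exact DF.comp (F := thr k) ⟨τ, t2, t3⟩ hg

/-- Disjunctions. -/
theorem DF.any {g : Fin m → BF n} {e : ℕ} (hg : ∀ i, DF (g i) e) :
    DF (fun x => decide (∃ i, g i x = true)) (e + (12 * Nat.log 2 m + 18)) := by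
  refine (DF.count hg 1).congr fun x => ?_
  rw [decide_eq_decide, Nat.one_le_iff_ne_zero, Finset.card_ne_zero]
  constructor
  · rintro ⟨i, hi⟩
    exact ⟨i, (mem_filter.1 hi).2⟩
  · rintro ⟨i, hi⟩
    exact ⟨i, mem_filter.2 ⟨mem_univ _, hi⟩⟩

end Pool.Agent.TH709.NC
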