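import Mathlib
import Pool.Agent.TH709.NC.Abs
import Pool.Agent.TH709.NC.Form

/-!
# Tests of small depth which exclude a fraction of the value vectors give formulas of small depth
-/

set_option autoImplicit false

namespace Pool.Agent.TH709.NC

open Finset Pool.Agent.H540R2 Pool.Agent.W953.NW Pool.Agent.W953.FN

variable {n m : ℕ}

/-- The list `x 0, …, x (m - 1)` of strings of `n` bits, written as one string of `m * n` bits. -/
def join (x : Fin m → Fin n → Bool) : Fin (m * n) → Bool :=
  fun k => x (finProdFinEquiv.symm k).1 (finProdFinEquiv.symm k).2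

lemma join_prod (x : Fin m → Fin n → Bool) (j : Fin m) (i : Fin n) :
    join x (finProdFinEquiv (j, i)) = x j i := by
  unfold join
  rw [Equiv.symm_apply_apply]

/-- every string is a joined list -/
lemma exists_join (y : Fin (m * n) → Bool) : ∃ x : Fin m → Fin n → Bool, join x = y := by
  refine ⟨fun j i => y (finProdFinEquiv (j, i)), ?_⟩
  funext k
  show y (finProdFinEquiv ((finProdFinEquiv.symm k).1, (finProdFinEquiv.symm k).2)) = y k
  have : ((finProdFinEquiv.symm k).1, (finProdFinEquiv.symm k).2) = finProdFinEquiv.symm k := rfl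
  rw [this, Equiv.apply_symm_apply]

/-- the predictors obtained from a test -/
lemma DF.pred {T : BF (m * n + m)} {d : ℕ} (hT : DF T d) (z : Fin m → Fin n → Bool) (t : Fin m)
    (W : Fin m → Bool) :
    DF (fun a : Fin n → Bool => T (Fin.append (join (Function.update z t a)) W)) d := by
  refine (DF.comp0 hT (g := fun k a => Fin.append (join (Function.update z t a)) W k) ?_)
  intro k
  refine Fin.addCases (fun k => ?_) (fun k => ?_) k
  · simp only [Fin.append_left, join]
    by_cases h : (finProdFinEquiv.symm k).1 = t
    · refine (DF.var (finProdFinEquiv.symm k).2).congr fun a => ?_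
      rw [h, Function.update_self]
    · refine (DF.const (z (finProdFinEquiv.symm k).1 (finProdFinEquiv.symm k).2)).congr fun a => ?_
      rw [Function.update_of_ne h]
  · simp only [Fin.append_right]
    exact DF.const _

/-- **The core.** If a test of depth `d` accepts the vector of the values of `f` for every list of
`m` inputs and rejects the fraction `1 / D` of all vectors, then `f` has formulas of depth
`d + 12 * log (8 * (n + 1) * m ^ 2 * D ^ 2) + 19`. -/
theorem core {D d : ℕ} (f : BF n) {T : BF (m * n + m)} (hT : DF T d)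
    (h1 : ∀ x : Fin m → Fin n → Bool, T (Fin.append (join x) (fun j => f (x j))) = true)
    (h2 : ∀ x : Fin m → Fin n → Bool, 2 ^ m ≤
      D * (univ.filter fun u : Fin m → Bool => T (Fin.append (join x) u) = false).card) :
    DF f (d + 12 * Nat.log 2 (8 * (n + 1) * m ^ 2 * D ^ 2) + 19) := by
  have hD : 0 < D := by
    rcases Nat.eq_zero_or_pos D with rfl | h
    · have := h2 (fun _ _ => false)
      rw [Nat.zero_mul] at this
      have h3 : 0 < 2 ^ m := by positivity
      omega
    · exact h
  have hm : 0 < m := by
    rcases Nat.eq_zero_or_pos m with rfl | h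
    · exfalso
      have h3 := h2 (fun _ _ => false)
      have h4 : (univ.filter fun u : Fin 0 → Bool =>
          T (Fin.append (join (fun _ _ => false)) u) = false) = ∅ := by
        rw [filter_eq_empty_iff]
        intro u _
        have e : u = fun j => f ((fun _ _ => false : Fin 0 → Fin n → Bool) j) :=
          funext fun j => j.elim0
        rw [e, h1]
        simp
      rw [h4, card_empty, Nat.mul_zero] at h3
      exact absurd h3 (by norm_num)
    · exact h
  obtain ⟨L, hLe⟩ : ∃ L, L = 8 * (n + 1) * m ^ 2 * D ^ 2 := ⟨_, rfl⟩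
  rw [← hLe]
  have hL : (Fintype.card (Fin n → Bool) : ℝ) <
      Real.exp (L * (1 / ((m : ℝ) * D)) ^ 2 / 8) := by
    have e1 : (L : ℝ) * (1 / ((m : ℝ) * D)) ^ 2 / 8 = n + 1 := by
      have hmR : (0 : ℝ) < m := by exact_mod_cast hm
      have hDR : (0 : ℝ) < D := by exact_mod_cast hD
      rw [hLe]
      push_cast
      field_simp
    rw [e1]
    have e2 : (Fintype.card (Fin n → Bool) : ℝ) = 2 ^ n := by
      rw [Fintype.card_fun, Fintype.card_bool, Fintype.card_fin]
      push_cast
      rfl
    rw [e2]
    have e3 : (2 : ℝ) ≤ Real.exp 1 := by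
      have := Real.add_one_le_exp (1 : ℝ)
      linarith
    calc (2 : ℝ) ^ n ≤ Real.exp 1 ^ n := pow_le_pow_left₀ (by norm_num) e3 n
      _ = Real.exp n := by rw [← Real.exp_nat_mul, mul_one]
      _ < Real.exp (n + 1) := Real.exp_lt_exp.2 (by linarith)
  obtain ⟨t, z, W, b, hv⟩ := vote (α := Fin n → Bool) ⟨fun _ => false⟩ hm hD f
    (fun x u => T (Fin.append (join x) u)) h1 h2 L hL
  have h3 : ∀ l : Fin L, DF (fun a : Fin n → Bool =>
      xor (b l) (T (Fin.append (join (Function.update (z l) (t l) a)) (W l)))) (d + 1) :=
    fun l => (DF.pred hT (z l) (t l) (W l)).xorc (b l)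
  refine ((DF.count h3 (L / 2 + 1)).congr fun a => ?_).mono (by omega)
  exact (hv a).symm

end Pool.Agent.TH709.NC
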