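import Mathlib
import Pool.Agent.TH709.NC.Core
import Pool.Agent.TH709.NC.Comb

/-!
# Statements on tests and predictions for the values of circuits
-/

set_option autoImplicit false

namespace Pool.Agent.TH709.NC

open Finset Pool.Agent.H540R2

/-- For every circuit `C` of size `S ≥ 2` there are a length `m ≤ 2 ^ (c * log ^ i S)` and a circuit
`T` of depth at most `c * log ^ i S` (the test), which reads `m` inputs `x 0, …, x (m - 1)` of `C`
and a vector `u` of `m` bits, such that for every list `x`: the test accepts the vector of the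
values of `C` on `x`, and it rejects at least the fraction `2 ^ (- c * log ^ i S)` of all vectors. -/
def Excludes (i : ℕ) : Prop :=
  ∃ c : ℕ, ∀ (n : ℕ) (C : Circuit n), 2 ≤ C.size →
    ∃ (m : ℕ) (T : Circuit (m * n + m)), m ≤ 2 ^ (c * Nat.log 2 C.size ^ i) ∧
      T.depth ≤ c * Nat.log 2 C.size ^ i ∧
      ∀ x : Fin m → Fin n → Bool, T.eval (Fin.append (join x) fun j => C.eval (x j)) = true ∧
        2 ^ m ≤ 2 ^ (c * Nat.log 2 C.size ^ i) *
          (univ.filter fun u : Fin m → Bool => T.eval (Fin.append (join x) u) = false).card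

/-- For every circuit `C` of size `S ≥ 2` there are a length `m ≤ 2 ^ (c * log ^ i S)` and, for each
hint `h` of `k` bits and each `j < m`, a prediction of the value of `C` on the input `x j` by
circuits of depth at most `c * log ^ i S` which read the whole list `x` of `m` inputs (`A h j` says
whether there is a prediction, and `P h j` predicts) such that for every list there is a hint for
which the number of right predictions and the number of wrong predictions differ by at least `t`. -/
def Predictable (i k t : ℕ) : Prop :=
  ∃ c : ℕ, ∀ (n : ℕ) (C : Circuit n), 2 ≤ C.size →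
    ∃ (m : ℕ) (A P : Fin (2 ^ k) → Fin m → Circuit (m * n)), m ≤ 2 ^ (c * Nat.log 2 C.size ^ i) ∧
      (∀ h j, (A h j).depth ≤ c * Nat.log 2 C.size ^ i ∧
        (P h j).depth ≤ c * Nat.log 2 C.size ^ i) ∧
      ∀ x : Fin m → Fin n → Bool, ∃ h, (t : ℤ) ≤ |excess
        (fun j => if (A h j).eval (join x) = true then some ((P h j).eval (join x)) else none)
        (fun j => C.eval (x j))|

/-- For every circuit `C` of size `S ≥ 2` there are `m`, `k`, `r` and circuits `P h j` of depth at
most `c * log ^ i S` (for the hints `h` of `k ≤ c * log ^ i S` bits and `j < m`, where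
`m ≤ 2 ^ (c * log ^ i S)`) which read a list `x` of `m` inputs of `C` such that for every list there
is a hint for which at least `r` of the values of `C` on the list are predicted right, although
`2 ^ k` times the number `vol m r` of vectors which agree with a given one in at least `r` places is
at most `(1 - 2 ^ (- c * log ^ i S)) * 2 ^ m`. -/
def Covered (i : ℕ) : Prop :=
  ∃ c : ℕ, ∀ (n : ℕ) (C : Circuit n), 2 ≤ C.size →
    ∃ (m k r : ℕ) (P : Fin (2 ^ k) → Fin m → Circuit (m * n)),
      m ≤ 2 ^ (c * Nat.log 2 C.size ^ i) ∧ k ≤ c * Nat.log 2 C.size ^ i ∧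
      2 ^ m ≤ 2 ^ (c * Nat.log 2 C.size ^ i) * (2 ^ m - 2 ^ k * vol m r) ∧
      (∀ h j, (P h j).depth ≤ c * Nat.log 2 C.size ^ i) ∧
      ∀ x : Fin m → Fin n → Bool, ∃ h,
        r ≤ (univ.filter fun j : Fin m => (P h j).eval (join x) = C.eval (x j)).card

end Pool.Agent.TH709.NC
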