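import Mathlib
import Pool.Agent.TH709.NC.Defs

/-!
# From predictions to tests
-/

set_option autoImplicit false

namespace Pool.Agent.TH709.NC

open Finset Pool.Agent.H540R2 Pool.Agent.W953.NW Pool.Agent.W953.FN

variable {n m : ℕ}

/-- the part of the list -/
def lpart (y : Fin (m * n + m) → Bool) : Fin (m * n) → Bool := fun k => y (Fin.castAdd m k)

/-- the part of the vector -/
def vpart (y : Fin (m * n + m) → Bool) : Fin m → Bool := fun j => y (Fin.natAdd (m * n) j)

lemma lpart_append (x : Fin (m * n) → Bool) (u : Fin m → Bool) :
    lpart (Fin.append x u) = x := by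
  funext k
  simp [lpart]

lemma vpart_append (x : Fin (m * n) → Bool) (u : Fin m → Bool) :
    vpart (Fin.append x u) = u := by
  funext k
  simp [vpart]

lemma df_lpart {f : BF (m * n)} {d : ℕ} (h : DF f d) :
    DF (fun y : Fin (m * n + m) → Bool => f (lpart y)) d :=
  h.comp0 (g := fun k y => y (Fin.castAdd m k)) fun _ => DF.var _

lemma df_vbit (j : Fin m) : DF (fun y : Fin (m * n + m) → Bool => vpart y j) 0 := DF.var _

/-- the number of ones of two vectors together -/
lemma card_append {α : Type} (f g : Fin m → α → Bool) (a : α) :
    (univ.filter fun i : Fin (m + m) => (Fin.append f g : Fin (m + m) → α → Bool) i a = true).card =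
      (univ.filter fun j => f j a = true).card + (univ.filter fun j => g j a = true).card := by
  rw [card_filter, Fin.sum_univ_add, card_filter, card_filter]
  congr 1
  · refine sum_congr rfl fun j _ => ?_
    rw [Fin.append_left]
  · refine sum_congr rfl fun j _ => ?_
    rw [Fin.append_right]

/-- the number of right minus the number of wrong predictions, by counting ones -/
lemma df_diff {N d t : ℕ} {R W : Fin m → BF N} (hR : ∀ j, DF (R j) d) (hW : ∀ j, DF (W j) d) :
    DF (fun y => decide ((t : ℤ) ≤ ((univ.filter fun j => R j y = true).card : ℤ) -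
      ((univ.filter fun j => W j y = true).card : ℤ))) (d + 1 + (12 * Nat.log 2 (m + m) + 18)) := by
  have g1 : DF (fun y => decide (m + t ≤ (univ.filter fun i : Fin (m + m) =>
      (Fin.append R (fun j y => !(W j y)) : Fin (m + m) → BF N) i y =
        true).card)) (d + 1 + (12 * Nat.log 2 (m + m) + 18)) :=
    DF.count (fun i => by
      refine Fin.addCases (fun j => ?_) (fun j => ?_) i
      · simpa only [Fin.append_left] using (hR j).mono (Nat.le_succ d)
      · simpa only [Fin.append_right] using (hW j).not) _
  refine g1.congr fun y => ?_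
  rw [decide_eq_decide, card_append]
  have h2 := card_filter_add_card_filter_not (s := (univ : Finset (Fin m)))
    (fun j => W j y = true)
  rw [card_univ, Fintype.card_fin] at h2
  have h3 : (univ.filter fun j => (!(W j y)) = true) = univ.filter fun j => ¬ W j y = true := by
    ext j
    simp
  rw [h3]
  omega

/-- the answers of a pair of functions -/
def ans {N : ℕ} (A P : Fin m → BF N) (y : Fin N → Bool) : Fin m → Option Bool :=
  fun j => if A j y = true then some (P j y) else none

lemma bool_right (a p v : Bool) : ((a && !(xor p v)) = true) ↔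
    (if a = true then some p else none) = some v := by
  cases a <;> cases p <;> cases v <;> simp

lemma bool_wrong (a p v : Bool) : ((a && (xor p v)) = true) ↔
    (if a = true then some p else none) = some (!v) := by
  cases a <;> cases p <;> cases v <;> simp

lemma bool_agree (p v : Bool) : ((!(xor p v)) = true) ↔ p = v := by
  cases p <;> cases v <;> simp

/-- the test for a large excess -/
theorem df_excess {K d t : ℕ} {A P : Fin K → Fin m → BF (m * n)}
    (hA : ∀ h j, DF (A h j) d) (hP : ∀ h j, DF (P h j) d) :
    DF (fun y : Fin (m * n + m) → Bool =>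
      decide (∃ h, (t : ℤ) ≤ |excess (ans (A h) (P h) (lpart y)) (vpart y)|))
      (d + 7 + (12 * Nat.log 2 (m + m) + 18) + (12 * Nat.log 2 K + 18)) := by
  -- right and wrong
  obtain ⟨R, hR⟩ : ∃ R : Fin K → Fin m → BF (m * n + m), R = fun h j y =>
    A h j (lpart y) && !(xor (P h j (lpart y)) (vpart y j)) := ⟨_, rfl⟩
  obtain ⟨W, hW⟩ : ∃ W : Fin K → Fin m → BF (m * n + m), W = fun h j y =>
    A h j (lpart y) && xor (P h j (lpart y)) (vpart y j) := ⟨_, rfl⟩
  have dR : ∀ h j, DF (R h j) (d + 5) := by
    intro h j
    rw [hR]
    exact ((df_lpart (hA h j)).mono (by omega)).and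
      (((df_lpart (hP h j)).xor ((df_vbit j).mono (Nat.zero_le d))).not)
  have dW : ∀ h j, DF (W h j) (d + 5) := by
    intro h j
    rw [hW]
    exact (((df_lpart (hA h j)).mono (by omega)).and
      ((df_lpart (hP h j)).xor ((df_vbit j).mono (Nat.zero_le d)))).mono (by omega)
  have hr : ∀ h y, (univ.filter fun j => R h j y = true) =
      univ.filter fun j => ans (A h) (P h) (lpart y) j = some (vpart y j) := by
    intro h y
    ext j
    rw [mem_filter, mem_filter, hR]
    exact and_congr_right fun _ => bool_right _ _ _
  have hw : ∀ h y, (univ.filter fun j => W h j y = true) =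
      univ.filter fun j => ans (A h) (P h) (lpart y) j = some (!(vpart y j)) := by
    intro h y
    ext j
    rw [mem_filter, mem_filter, hW]
    exact and_congr_right fun _ => bool_wrong _ _ _
  have g := DF.any (fun h : Fin K =>
    (df_diff (t := t) (dR h) (dW h)).or (df_diff (t := t) (dW h) (dR h)))
  refine (g.congr fun y => ?_).mono (by omega)
  rw [decide_eq_decide]
  refine exists_congr fun h => ?_
  rw [Bool.or_eq_true, decide_eq_true_eq, decide_eq_true_eq, hr, hw]
  unfold excess
  rw [le_abs, neg_sub]

/-- the test for many agreements -/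
theorem df_agree {K d r : ℕ} {P : Fin K → Fin m → BF (m * n)} (hP : ∀ h j, DF (P h j) d) :
    DF (fun y : Fin (m * n + m) → Bool =>
      decide (∃ h, r ≤ (univ.filter fun j : Fin m => P h j (lpart y) = vpart y j).card))
      (d + 4 + (12 * Nat.log 2 m + 18) + (12 * Nat.log 2 K + 18)) := by
  have g := DF.any (fun h : Fin K => DF.count (fun j : Fin m =>
    ((df_lpart (hP h j)).xor ((df_vbit j).mono (Nat.zero_le d))).not) r)
  refine (g.congr fun y => ?_).mono (by omega)
  rw [decide_eq_decide]
  refine exists_congr fun h => ?_
  rw [decide_eq_true_eq]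
  have e : (univ.filter fun j : Fin m => (!(xor (P h j (lpart y)) (vpart y j))) = true) =
      univ.filter fun j : Fin m => P h j (lpart y) = vpart y j := by
    ext j
    simp only [mem_filter, mem_univ, true_and]
    exact bool_agree _ _
  rw [e]

end Pool.Agent.TH709.NC
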