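import Mathlib
import Pool.Agent.TH709.NC.Tests

/-!
# Depth, tests and predictions
-/

set_option autoImplicit false

namespace Pool.Agent.TH709.NC

open Finset Pool.Agent.H540R2 Pool.Agent.W953.NW Pool.Agent.W953.FN

variable {n m i : ℕ}

/-- **Tests give small depth**, for one function. -/
theorem depth_of_test {D : ℕ} (f : (Fin n → Bool) → Bool) (T : Circuit (m * n + m))
    (h : ∀ x : Fin m → Fin n → Bool, T.eval (Fin.append (join x) fun j => f (x j)) = true ∧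
      2 ^ m ≤ D * (univ.filter fun u : Fin m → Bool =>
        T.eval (Fin.append (join x) u) = false).card) :
    ∃ C : Circuit n, (∀ x, C.eval x = f x) ∧
      C.depth ≤ T.depth + 12 * Nat.log 2 (8 * (n + 1) * m ^ 2 * D ^ 2) + 19 := by
  obtain ⟨C, -, h2, h3⟩ := (core f (DF.of_circuit T) (fun x => (h x).1) (fun x => (h x).2)).circuit
  exact ⟨C, h3, h2⟩

theorem polylog_of_excludes (hi : 1 ≤ i) (h : Excludes i) : PolylogDepth i := by
  obtain ⟨c, hc⟩ := h
  refine ⟨49 * c + 187, fun n C hC => ?_⟩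
  have hΛ := lam_pos hC i
  obtain ⟨Λ, hΛe⟩ : ∃ Λ, Λ = Nat.log 2 C.size ^ i := ⟨_, rfl⟩
  have hmain : DF C.eval ((49 * c + 187) * Λ) := by
    rcases Nat.eq_zero_or_pos n with rfl | hn
    · refine ((DF.const (C.eval (fun i => i.elim0))).mono (Nat.zero_le _)).congr fun x => ?_
      have : x = fun i => i.elim0 := funext fun i => i.elim0
      rw [this]
    obtain ⟨C₁, ρ, h1, h2⟩ := exists_small hn C (2 * C.size + 1) le_rfl
    obtain ⟨m, T, hm, hT, hx⟩ := hc _ C₁ (by rw [h1]; exact hC)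
    rw [h1, ← hΛe] at hm hT hx
    have h3 := core C₁.eval (DF.of_circuit T) (fun x => (hx x).1) (fun x => (hx x).2)
    have hS : C.size ≤ 2 ^ (2 * Λ) := by rw [hΛe]; exact qb_S hC hi
    have hΛ1 : 1 ≤ Λ := by rw [hΛe]; exact hΛ
    have b1 : 8 * (2 * C.size + 1 + 1) * m ^ 2 * (2 ^ (c * Λ)) ^ 2 ≤ 2 ^ ((14 + 4 * c) * Λ) := by
      have e1 : 8 ≤ 2 ^ (8 * Λ) := qb_const hΛ1 8
      have e2 : 2 * C.size + 1 + 1 ≤ 2 ^ ((4 + 2) * Λ) := by
        have := qb_mul (qb_const hΛ1 4) hS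
        omega
      have e3 : m ^ 2 ≤ 2 ^ ((c + c) * Λ) := by
        rw [pow_two]
        exact qb_mul hm hm
      have e4 : (2 ^ (c * Λ)) ^ 2 ≤ 2 ^ ((c + c) * Λ) := by
        rw [pow_two]
        exact qb_mul le_rfl le_rfl
      refine (qb_mul (qb_mul (qb_mul e1 e2) e3) e4).trans (Nat.pow_le_pow_right (by norm_num)
        (Nat.mul_le_mul_right _ (by omega)))
    have b2 : Nat.log 2 (8 * (2 * C.size + 1 + 1) * m ^ 2 * (2 ^ (c * Λ)) ^ 2) ≤
        (14 + 4 * c) * Λ := by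
      calc _ ≤ Nat.log 2 (2 ^ ((14 + 4 * c) * Λ)) := Nat.log_mono_right b1
        _ = _ := Nat.log_pow (by norm_num) _
    have h4 : DF C.eval (T.depth + 12 * Nat.log 2 (8 * (2 * C.size + 1 + 1) * m ^ 2 *
        (2 ^ (c * Λ)) ^ 2) + 19) :=
      (h3.comp0 (g := fun j x => x (ρ j)) fun _ => DF.var _).congr fun x => h2 x
    refine h4.mono ?_
    have e5 : (49 * c + 187) * Λ = c * Λ + 12 * ((14 + 4 * c) * Λ) + 19 * Λ := by ring
    rw [e5]
    omega
  obtain ⟨C', c1, c2, c3⟩ := hmain.circuit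
  rw [← hΛe]
  exact ⟨C', fun x => (c3 x).symm, c2, c1⟩

theorem excess_zero (a : Fin 0 → Option Bool) (v : Fin 0 → Bool) : excess a v = 0 := by
  unfold excess
  simp

theorem excludes_of_predictable {k t : ℕ} (ht : 1 ≤ t)
    (hLD : Pool.Agent.W901.FH.LinDisc (2 ^ k) (t : ℝ)) (h : Predictable i k t) : Excludes i := by
  obtain ⟨c, hc⟩ := h
  obtain ⟨e, he⟩ : ∃ e, e = 13 * c + 55 + 12 * k + (2 + c) * (2 ^ k + 1) := ⟨_, rfl⟩
  refine ⟨e, fun n C hC => ?_⟩
  obtain ⟨m, A, P, hm, hAP, hx⟩ := hc n C hC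
  obtain ⟨Λ, hΛe⟩ : ∃ Λ, Λ = Nat.log 2 C.size ^ i := ⟨_, rfl⟩
  have hΛ1 : 1 ≤ Λ := by rw [hΛe]; exact lam_pos hC i
  rw [← hΛe] at hm hAP ⊢
  have hm1 : 1 ≤ m := by
    rcases Nat.eq_zero_or_pos m with rfl | h
    · obtain ⟨h, hh⟩ := hx (fun _ _ => false)
      rw [excess_zero, abs_zero] at hh
      exfalso
      have : (t : ℤ) ≤ 0 := hh
      omega
    · exact h
  obtain ⟨T, -, hT, hTe⟩ := (df_excess (t := t)
    (fun h j => (DF.of_circuit (A h j)).mono (hAP h j).1)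
    (fun h j => (DF.of_circuit (P h j)).mono (hAP h j).2)).circuit
  refine ⟨m, T, hm.trans (Nat.pow_le_pow_right (by norm_num) (Nat.mul_le_mul_right _ (by omega))),
    hT.trans ?_, fun x => ⟨?_, ?_⟩⟩
  · have e1 : Nat.log 2 (m + m) ≤ c * Λ + 1 := by
      calc Nat.log 2 (m + m) ≤ Nat.log 2 (2 ^ (c * Λ + 1)) := Nat.log_mono_right (by
            rw [pow_succ]; omega)
        _ = _ := Nat.log_pow (by norm_num) _
    have e2 : Nat.log 2 (2 ^ k) = k := Nat.log_pow (by norm_num) _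
    rw [e2]
    have e3 : e * Λ = 13 * (c * Λ) + 55 * Λ + 12 * (k * Λ) + (2 + c) * (2 ^ k + 1) * Λ := by
      rw [he]; ring
    have e4 : k ≤ k * Λ := Nat.le_mul_of_pos_right _ hΛ1
    rw [e3]
    omega
  · rw [hTe, decide_eq_true_eq]
    obtain ⟨h, hh⟩ := hx x
    refine ⟨h, ?_⟩
    rw [lpart_append, vpart_append]
    exact hh
  · have b1 := many_balanced hLD hm1
      (fun h => ans (fun j => (A h j).eval) (fun j => (P h j).eval) (join x))
    have b2 : (univ.filter fun u : Fin m → Bool => ∀ h : Fin (2 ^ k), |excess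
        (ans (fun j => (A h j).eval) (fun j => (P h j).eval) (join x)) u| < (t : ℤ)) =
        univ.filter fun u : Fin m → Bool => T.eval (Fin.append (join x) u) = false := by
      ext u
      rw [mem_filter, mem_filter, hTe, decide_eq_false_iff_not]
      refine and_congr_right fun _ => ?_
      push Not
      rw [lpart_append, vpart_append]
    rw [b2] at b1
    refine b1.trans (Nat.mul_le_mul_right _ ?_)
    have e1 : 4 * m ≤ 2 ^ ((2 + c) * Λ) := by
      have e4 : 4 ≤ 2 ^ (2 * Λ) := by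
        calc 4 = 2 ^ (2 * 1) := by norm_num
          _ ≤ 2 ^ (2 * Λ) := Nat.pow_le_pow_right (by norm_num) (Nat.mul_le_mul_left _ hΛ1)
      exact qb_mul e4 hm
    calc (4 * m) ^ (2 ^ k + 1) ≤ (2 ^ ((2 + c) * Λ)) ^ (2 ^ k + 1) := Nat.pow_le_pow_left e1 _
      _ = 2 ^ ((2 + c) * (2 ^ k + 1) * Λ) := by rw [← pow_mul]; congr 1; ring
      _ ≤ 2 ^ (e * Λ) := Nat.pow_le_pow_right (by norm_num) (Nat.mul_le_mul_right _ (by omega))

theorem excludes_of_covered (h : Covered i) : Excludes i := by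
  obtain ⟨c, hc⟩ := h
  refine ⟨25 * c + 40, fun n C hC => ?_⟩
  obtain ⟨m, k, r, P, hm, hk, hvol, hP, hx⟩ := hc n C hC
  obtain ⟨Λ, hΛe⟩ : ∃ Λ, Λ = Nat.log 2 C.size ^ i := ⟨_, rfl⟩
  have hΛ1 : 1 ≤ Λ := by rw [hΛe]; exact lam_pos hC i
  rw [← hΛe] at hm hk hvol hP ⊢
  obtain ⟨T, -, hT, hTe⟩ := (df_agree (r := r)
    (fun h j => (DF.of_circuit (P h j)).mono (hP h j))).circuit
  refine ⟨m, T, hm.trans (Nat.pow_le_pow_right (by norm_num) (Nat.mul_le_mul_right _ (by omega))),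
    hT.trans ?_, fun x => ⟨?_, ?_⟩⟩
  · have e1 : Nat.log 2 m ≤ c * Λ := by
      calc Nat.log 2 m ≤ Nat.log 2 (2 ^ (c * Λ)) := Nat.log_mono_right hm
        _ = _ := Nat.log_pow (by norm_num) _
    have e2 : Nat.log 2 (2 ^ k) = k := Nat.log_pow (by norm_num) _
    rw [e2]
    have e3 : (25 * c + 40) * Λ = 25 * (c * Λ) + 40 * Λ := by ring
    rw [e3]
    omega
  · rw [hTe, decide_eq_true_eq]
    obtain ⟨h, hh⟩ := hx x
    refine ⟨h, ?_⟩
    rw [lpart_append, vpart_append]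
    exact hh
  · have b1 := card_far (fun (h : Fin (2 ^ k)) (j : Fin m) => (P h j).eval (join x)) r
    have b2 : (univ.filter fun u : Fin m → Bool => ∀ h : Fin (2 ^ k),
        ¬ r ≤ (univ.filter fun j : Fin m => (P h j).eval (join x) = u j).card) =
        univ.filter fun u : Fin m → Bool => T.eval (Fin.append (join x) u) = false := by
      ext u
      rw [mem_filter, mem_filter, hTe, decide_eq_false_iff_not, not_exists]
      refine and_congr_right fun _ => ?_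
      rw [lpart_append, vpart_append]
    rw [b2] at b1
    calc 2 ^ m ≤ 2 ^ (c * Λ) * (2 ^ m - 2 ^ k * vol m r) := hvol
      _ ≤ 2 ^ ((25 * c + 40) * Λ) * _ := Nat.mul_le_mul
        (Nat.pow_le_pow_right (by norm_num) (Nat.mul_le_mul_right _ (by omega))) b1

/-- the exact predictor -/
lemma exact_pred {n d : ℕ} (C' : Circuit n) (hd : C'.depth ≤ d) (m : ℕ) (j : Fin m) :
    ∃ P : Circuit (m * n), P.depth ≤ d ∧ ∀ x : Fin m → Fin n → Bool,
      P.eval (join x) = C'.eval (x j) := by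
  have h := (DF.of_circuit C').comp0 (g := fun (i : Fin n) (y : Fin (m * n) → Bool) =>
    y (finProdFinEquiv (j, i))) fun _ => DF.var _
  obtain ⟨P, -, h2, h3⟩ := h.circuit
  refine ⟨P, h2.trans hd, fun x => ?_⟩
  rw [h3]
  congr 1
  funext i
  exact join_prod x j i

lemma exact_true (N : ℕ) : ∃ A : Circuit N, A.depth ≤ 0 ∧ ∀ x, A.eval x = true := by
  obtain ⟨A, -, h2, h3⟩ := (DF.const (n := N) true).circuit
  exact ⟨A, h2, h3⟩

theorem predictable_of_polylog {k t : ℕ} (h : PolylogDepth i) : Predictable i k t := by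
  obtain ⟨c, hc⟩ := h
  refine ⟨c + t, fun n C hC => ?_⟩
  obtain ⟨C', h1, h2, -⟩ := hc n C hC
  obtain ⟨Λ, hΛe⟩ : ∃ Λ, Λ = Nat.log 2 C.size ^ i := ⟨_, rfl⟩
  have hΛ1 : 1 ≤ Λ := by rw [hΛe]; exact lam_pos hC i
  rw [← hΛe] at h2 ⊢
  choose P hP1 hP2 using fun j : Fin t => exact_pred C' (h2.trans
    (Nat.mul_le_mul_right Λ (Nat.le_add_right c t))) t j
  obtain ⟨A, hA1, hA2⟩ := exact_true (t * n)
  refine ⟨t, fun _ _ => A, fun _ j => P j, ?_, fun _ j => ⟨hA1.trans (Nat.zero_le _), hP1 j⟩,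
    fun x => ⟨⟨0, by positivity⟩, ?_⟩⟩
  · exact (qb_const hΛ1 t).trans (Nat.pow_le_pow_right (by norm_num)
      (Nat.mul_le_mul_right _ (by omega)))
  · have e1 : (fun j => if A.eval (join x) = true then some ((P j).eval (join x)) else none) =
        fun j => some (C.eval (x j)) := by
      funext j
      rw [hA2, if_pos rfl, hP2, h1]
    rw [e1]
    unfold excess
    have e2 : (univ.filter fun j : Fin t => some (C.eval (x j)) = some (C.eval (x j))) = univ := by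
      simp
    have e3 : (univ.filter fun j : Fin t => some (C.eval (x j)) = some (!(C.eval (x j)))) = ∅ := by
      simp
    rw [e2, e3]
    simp

theorem covered_of_polylog (h : PolylogDepth i) : Covered i := by
  obtain ⟨c, hc⟩ := h
  refine ⟨c + 1, fun n C hC => ?_⟩
  obtain ⟨C', h1, h2, -⟩ := hc n C hC
  obtain ⟨Λ, hΛe⟩ : ∃ Λ, Λ = Nat.log 2 C.size ^ i := ⟨_, rfl⟩
  have hΛ1 : 1 ≤ Λ := by rw [hΛe]; exact lam_pos hC i
  rw [← hΛe] at h2 ⊢
  obtain ⟨P, hP1, hP2⟩ := exact_pred C' (h2.trans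
    (Nat.mul_le_mul_right Λ (Nat.le_add_right c 1))) 1 0
  have hone : 2 ^ 1 ≤ 2 ^ ((c + 1) * Λ) := Nat.pow_le_pow_right (by norm_num) (by nlinarith)
  refine ⟨1, 0, 1, fun _ _ => P, by omega, Nat.zero_le _, ?_, fun _ _ => hP1, fun x =>
    ⟨⟨0, by norm_num⟩, ?_⟩⟩
  · have e1 : vol 1 1 = 1 := by decide
    rw [e1]
    omega
  · have e1 : (univ.filter fun j : Fin 1 => P.eval (join x) = C.eval (x j)) = univ := by
      ext j
      rw [mem_filter]
      refine ⟨fun _ => mem_univ _, fun _ => ⟨mem_univ _, ?_⟩⟩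
      rw [hP2, h1, Subsingleton.elim j 0]
    show 1 ≤ (univ.filter fun j : Fin 1 => P.eval (join x) = C.eval (x j)).card
    rw [e1]
    simp

theorem polylog_iff_excludes (hi : 1 ≤ i) : PolylogDepth i ↔ Excludes i :=
  ⟨fun h => excludes_of_covered (covered_of_polylog h), polylog_of_excludes hi⟩

theorem polylog_iff_covered (hi : 1 ≤ i) : PolylogDepth i ↔ Covered i :=
  ⟨covered_of_polylog, fun h => polylog_of_excludes hi (excludes_of_covered h)⟩

/-- **The law of help bits for small depth.** -/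
theorem help_law : ∃ C : ℕ, 0 < C ∧ ∀ k t : ℕ,
    ((C * 2 ^ k ≤ t ^ 2 ∨ (k + 1) * 2 ^ (k + 1) ≤ t ^ 2) →
      ∀ i, 1 ≤ i → (PolylogDepth i ↔ Predictable i k t)) ∧
    ((t - 1) ^ 2 < 2 ^ k → ∀ m, 2 ^ k ≤ m → ∃ p : Fin (2 ^ k) → Fin m → Option Bool,
      ∀ v : Fin m → Bool, ∃ h, (t : ℤ) ≤ |excess (p h) v|) := by
  obtain ⟨C, hC0, hC⟩ := exists_const
  refine ⟨C, hC0, fun k t => ⟨fun hkt i hi => ⟨predictable_of_polylog, fun h => ?_⟩,
    fun h m hm => free_excess h hm⟩⟩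
  refine polylog_of_excludes hi (excludes_of_predictable ?_ (hC k t hkt) h)
  rcases Nat.eq_zero_or_pos t with rfl | ht
  · exfalso
    have h1 : 0 < C * 2 ^ k := by positivity
    have h2 : 0 < (k + 1) * 2 ^ (k + 1) := by positivity
    rcases hkt with h | h
    · rw [zero_pow two_ne_zero] at h
      omega
    · rw [zero_pow two_ne_zero] at h
      omega
  · exact ht

end Pool.Agent.TH709.NC
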