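import Pool.Agent.H491R3.PE.Near

/-!
# Pairs of powers at distance at most `x`: the pairs with `a ^ n ≤ x ^ 2`

The count is adapted from the starting file `Pool/Agent/H491R3/PE/Basic.lean`.
-/

set_option autoImplicit false

namespace Pool.Agent.TH709.NC

open Real Filter Set
open Pool.Agent.H491R3.PE

variable {a b : ℝ}

/-- the pairs at distance at most `x` with `a ^ n ≤ x ^ 2` -/
def NB (a b x : ℝ) : Set (ℕ × ℕ) := {p | |a ^ p.1 - b ^ p.2| ≤ x ∧ a ^ p.1 ≤ x ^ 2}

set_option maxHeartbeats 1000000 in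
theorem NB_count (ha : 1 < a) (hb : 1 < b) :
    ∃ C : ℝ, 0 ≤ C ∧ ∀ x : ℝ, 2 ≤ x → (NB a b x).Finite ∧
      |((NB a b x).ncard : ℝ) - log x ^ 2 / (log a * log b)| ≤ C * log x := by
  classical
  have hA : 0 < log a := log_pos ha
  have hB : 0 < log b := log_pos hb
  have hl2 : 0 < log 2 := log_pos (by norm_num)
  have hl3 : 0 < log 3 := log_pos (by norm_num)
  set A := log a with hAdef
  set B := log b with hBdef
  set c1 := log 2 / B + 1 with hc1def
  set c2 := log 2 / A + 1 with hc2def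
  set c3 := log 3 / B with hc3def
  set c4 := log 3 / B + 1 with hc4def
  have p1 : 0 < c1 := by positivity
  have p2 : 0 < c2 := by positivity
  have p3 : 0 < c3 := by positivity
  have p4 : 0 < c4 := by positivity
  set P := 1 / A + 1 / B + c1 / A + c2 / B + 2 * c4 / A with hP
  set Q := 1 + c1 + c2 * (c3 + 1) + c4 with hQ
  have hP0 : 0 ≤ P := by positivity
  have hQ0 : 0 ≤ Q := by positivity
  refine ⟨P + Q / log 2, by positivity, fun x hx => ?_⟩
  have hx0 : 0 < x := by linarith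
  have hx4 : 4 ≤ x ^ 2 := by nlinarith [hx]
  have hxx : 2 * x ≤ x ^ 2 := by nlinarith [hx]
  have hxx1 : x ≤ x ^ 2 := by linarith
  have hlx : log 2 ≤ log x := Real.log_le_log (by norm_num) hx
  have hlx0 : 0 < log x := by linarith
  set U := log x / A with hU
  set V := log x / B with hV
  have hU0 : 0 ≤ U := by positivity
  have hV0 : 0 ≤ V := by positivity
  set Bx := {p : ℕ × ℕ | a ^ p.1 ≤ x ∧ b ^ p.2 ≤ x} with hBx
  obtain ⟨bf, bl, bu⟩ := box_count ha hb hx
  set R1 := {p : ℕ × ℕ | |a ^ p.1 - b ^ p.2| ≤ x ∧ a ^ p.1 ≤ x ∧ x < b ^ p.2} with hR1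
  set R2 := {p : ℕ × ℕ | |a ^ p.1 - b ^ p.2| ≤ x ∧ x < a ^ p.1 ∧ a ^ p.1 ≤ 2 * x} with hR2
  set R3 := {p : ℕ × ℕ | |a ^ p.1 - b ^ p.2| ≤ x ∧ 2 * x < a ^ p.1 ∧ a ^ p.1 ≤ x ^ 2} with hR3
  have l2x : log (2 * x) = log 2 + log x := Real.log_mul (by norm_num) hx0.ne'
  have l3x : log (3 * x) = log 3 + log x := Real.log_mul (by norm_num) hx0.ne'
  have lx2 : log (x ^ 2) = 2 * log x := by rw [Real.log_pow]; norm_num
  have r1 := set_count (S := R1) (u := 0) (L := U) (L2 := log 2 / B) (f := fun _ => V) hU0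
    (by positivity) (by
      rintro p ⟨h1, h2, h3⟩
      rw [abs_le] at h1
      have h4 := (pow_le_iff_log ha hx0 p.1).1 h2
      have h5 := (lt_pow_iff_log hb hx0 p.2).1 h3
      have h6 : b ^ p.2 ≤ 2 * x := by linarith [h1.1]
      have h7 := (pow_le_iff_log hb (by linarith) p.2).1 h6
      rw [l2x, add_div] at h7
      refine ⟨by positivity, by rw [zero_add]; exact h4, h5.le, by linarith⟩)
  have r2 := set_count (S := R2) (u := U) (L := log 2 / A) (L2 := V + c3) (f := fun _ => 0)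
    (by positivity) (by positivity) (by
      rintro p ⟨h1, h2, h3⟩
      rw [abs_le] at h1
      have h4 := (lt_pow_iff_log ha hx0 p.1).1 h2
      have h5 := (pow_le_iff_log ha (by linarith) p.1).1 h3
      rw [l2x, add_div] at h5
      have h6 : b ^ p.2 ≤ 3 * x := by linarith [h1.1]
      have h7 := (pow_le_iff_log hb (by linarith) p.2).1 h6
      rw [l3x, add_div] at h7
      refine ⟨h4.le, by linarith, by positivity, by linarith⟩)
  have r3 := set_count (S := R3) (u := 0) (L := 2 * U) (L2 := log 3 / B)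
    (f := fun n => (n : ℝ) * log a / log b - log 2 / log b)
    (by positivity) (by positivity) (by
      rintro p ⟨h1, h2, h3⟩
      have h5 := (pow_le_iff_log ha (by positivity) p.1).1 h3
      rw [lx2, mul_div_assoc] at h5
      obtain ⟨h6, h7⟩ := m_window ha hb h2 h1
      refine ⟨by positivity, by rw [zero_add]; exact h5, h6, h7⟩)
  have hcover : NB a b x = Bx ∪ (R1 ∪ (R2 ∪ R3)) := by
    ext p
    simp only [mem_union, hBx, hR1, hR2, hR3, mem_ofPred_eq, NB]
    constructor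
    · rintro ⟨h1, h2⟩
      rcases le_or_gt (a ^ p.1) x with h3 | h3
      · rcases le_or_gt (b ^ p.2) x with h4 | h4
        · exact Or.inl ⟨h3, h4⟩
        · exact Or.inr (Or.inl ⟨h1, h3, h4⟩)
      · rcases le_or_gt (a ^ p.1) (2 * x) with h4 | h4
        · exact Or.inr (Or.inr (Or.inl ⟨h1, h3, h4⟩))
        · exact Or.inr (Or.inr (Or.inr ⟨h1, h4, h2⟩))
    · rintro (⟨h1, h2⟩ | ⟨h1, h2, h3⟩ | ⟨h1, h2, h3⟩ | ⟨h1, h2, h3⟩)
      · refine ⟨?_, by linarith⟩
        have ha0 : 0 < a ^ p.1 := by positivity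
        have hb0 : 0 < b ^ p.2 := by positivity
        rw [abs_le]
        constructor <;> linarith
      · exact ⟨h1, by linarith⟩
      · exact ⟨h1, by linarith⟩
      · exact ⟨h1, h3⟩
  have hfin : (Bx ∪ (R1 ∪ (R2 ∪ R3))).Finite := bf.union (r1.1.union (r2.1.union r3.1))
  rw [hcover]
  refine ⟨hfin, ?_⟩
  have up : ((Bx ∪ (R1 ∪ (R2 ∪ R3))).ncard : ℝ) ≤
      Bx.ncard + (R1.ncard + (R2.ncard + R3.ncard)) := by
    have u1 := Set.ncard_union_le Bx (R1 ∪ (R2 ∪ R3))
    have u2 := Set.ncard_union_le R1 (R2 ∪ R3)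
    have u3 := Set.ncard_union_le R2 R3
    exact_mod_cast (by omega : (Bx ∪ (R1 ∪ (R2 ∪ R3))).ncard ≤
      Bx.ncard + (R1.ncard + (R2.ncard + R3.ncard)))
  have lo : (Bx.ncard : ℝ) ≤ ((Bx ∪ (R1 ∪ (R2 ∪ R3))).ncard : ℝ) := by
    exact_mod_cast Set.ncard_le_ncard (Set.subset_union_left) hfin
  have hmain : log x ^ 2 / (A * B) = U * V := by
    rw [hU, hV]
    field_simp
  have hQl : Q ≤ Q / log 2 * log x := by
    rw [div_mul_eq_mul_div, le_div_iff₀ hl2]
    exact mul_le_mul_of_nonneg_left hlx hQ0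
  have htot : U + V + 1 + (U + 1) * c1 + c2 * (V + c3 + 1) + (2 * U + 1) * c4 =
      P * log x + Q := by
    rw [hP, hQ, hU, hV]
    field_simp
    ring
  have s1 := r1.2
  have s2 := r2.2
  have s3 := r3.2
  rw [hmain, abs_le]
  constructor
  · have : 0 ≤ (P + Q / log 2) * log x := by positivity
    linarith
  · have e1 : (P + Q / log 2) * log x = P * log x + Q / log 2 * log x := by ring
    rw [e1]
    have e2 : (U + 1) * (V + 1) = U * V + U + V + 1 := by ring
    rw [e2] at bu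
    linarith

end Pool.Agent.TH709.NC
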