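import Pool.Agent.TH709.NC.Box

/-!
# The lines through primitive near misses
-/

set_option autoImplicit false

namespace Pool.Agent.TH709.NC

open Real Filter Set
open Pool.Agent.H491R3.PE

variable {a b : ℝ}

/-- primitive pairs with `n ≥ 1` and `|a ^ n - b ^ m| < a ^ (n / 2)` -/
def LL (a b : ℝ) : Set (ℕ × ℕ) :=
  {p | 1 ≤ p.1 ∧ p.1.Coprime p.2 ∧ |a ^ p.1 - b ^ p.2| ^ 2 < a ^ p.1}

/-- the multiples of the elements of `L` -/
def On (L : Set (ℕ × ℕ)) (p : ℕ × ℕ) : Prop := ∃ l ∈ L, ∃ g : ℕ, p = (g * l.1, g * l.2)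

theorem LL_sub : LL a b ⊆ SS a b := fun _ hp => ⟨hp.2.1, hp.2.2⟩

theorem on_of_large (ha : 1 < a) (hb : 1 < b) {x : ℝ} (hx : 2 ≤ x) {p : ℕ × ℕ}
    (h1 : |a ^ p.1 - b ^ p.2| ≤ x) (h2 : x ^ 2 < a ^ p.1) : On (LL a b) p := by
  have hn0 : p.1 ≠ 0 := by
    intro h0
    rw [h0, pow_zero] at h2
    nlinarith
  set g := Nat.gcd p.1 p.2 with hg
  have hg0 : g ≠ 0 := Nat.gcd_ne_zero_left hn0
  have hcop : Nat.Coprime (p.1 / g) (p.2 / g) :=
    Nat.coprime_div_gcd_div_gcd (Nat.pos_of_ne_zero hg0)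
  have hn1 : g * (p.1 / g) = p.1 := Nat.mul_div_cancel' (Nat.gcd_dvd_left _ _)
  have hm1 : g * (p.2 / g) = p.2 := Nat.mul_div_cancel' (Nat.gcd_dvd_right _ _)
  have hn1pos : 1 ≤ p.1 / g := by
    rcases Nat.eq_zero_or_pos (p.1 / g) with h | h
    · rw [h, mul_zero] at hn1
      exact absurd hn1.symm hn0
    · exact h
  refine ⟨(p.1 / g, p.2 / g), ⟨hn1pos, hcop, ?_⟩, g, Prod.ext hn1.symm hm1.symm⟩
  show |a ^ (p.1 / g) - b ^ (p.2 / g)| ^ 2 < a ^ (p.1 / g)
  rcases Nat.lt_or_ge 1 g with hg2 | hg1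
  · have h8 := gcd_ineq ha hb (p.1 / g) (p.2 / g) g (by omega)
    rw [hn1, hm1] at h8
    have hA1 : 1 < a ^ (p.1 / g) := one_lt_pow₀ ha (by omega)
    set X := (a ^ (p.1 / g)) ^ (g - 1) with hX
    have hX2 : x ^ 2 < X ^ 2 := by
      calc x ^ 2 < a ^ p.1 := h2
        _ = (a ^ (p.1 / g)) ^ g := by rw [← pow_mul, mul_comm, hn1]
        _ ≤ (a ^ (p.1 / g)) ^ ((g - 1) * 2) := pow_le_pow_right₀ hA1.le (by omega)
        _ = X ^ 2 := by rw [hX, pow_mul]
    have hXpos : 0 < X := by positivity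
    have hxX : x < X := lt_of_pow_lt_pow_left₀ 2 hXpos.le hX2
    have h9 : |a ^ (p.1 / g) - b ^ (p.2 / g)| * X < 1 * X := by
      rw [one_mul]
      exact lt_of_le_of_lt (h8.trans h1) hxX
    have h10 := lt_of_mul_lt_mul_right h9 hXpos.le
    have h11 : |a ^ (p.1 / g) - b ^ (p.2 / g)| ^ 2 < 1 := pow_lt_one₀ (abs_nonneg _) h10 two_ne_zero
    linarith
  · have hg1' : g = 1 := by omega
    rw [hg1', Nat.div_one, Nat.div_one]
    exact lt_of_le_of_lt (pow_le_pow_left₀ (abs_nonneg _) h1 2) h2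

/-- few members of `LL` with bounded first coordinate -/
theorem LL_fin (ha : 1 < a) (hb : 1 < b) (N : ℕ) : {l | l ∈ LL a b ∧ l.1 ≤ N}.Finite := by
  refine (box_count ha hb (x := max 2 (2 * a ^ N)) (le_max_left _ _)).1.subset ?_
  rintro p ⟨⟨-, -, hp⟩, hN⟩
  have h1 : a ^ p.1 ≤ a ^ N := pow_le_pow_right₀ ha.le hN
  have h2 : a ^ p.1 * 1 ≤ a ^ p.1 * a ^ p.1 :=
    mul_le_mul_of_nonneg_left (one_le_pow₀ ha.le) (by positivity)
  have h3 : |a ^ p.1 - b ^ p.2| ^ 2 < (a ^ p.1) ^ 2 := by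
    refine lt_of_lt_of_le hp ?_
    rw [sq]
    linarith
  have h4 : |a ^ p.1 - b ^ p.2| < a ^ p.1 := lt_of_pow_lt_pow_left₀ 2 (by positivity) h3
  rw [abs_lt] at h4
  have h5 : 2 * a ^ N ≤ max 2 (2 * a ^ N) := le_max_right _ _
  have h6 : 0 < a ^ N := by positivity
  exact ⟨by linarith, by linarith [h4.1]⟩

/-- the gaps between the members of `LL` -/
theorem gaps (ha : 1 < a) (hb : 1 < b) : ∃ n₀ : ℕ, ∃ lam : ℝ, 1 ≤ n₀ ∧ 0 < lam ∧ lam ≤ 1 ∧
    1 ≤ lam * n₀ ∧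
    (∀ p ∈ LL a b, ∀ q ∈ LL a b, n₀ ≤ p.1 → p.1 = q.1 → p = q) ∧
    (∀ p ∈ LL a b, ∀ q ∈ LL a b, n₀ ≤ p.1 → p.1 < q.1 → 2 * p.1 ≤ q.1) ∧
    (∀ p ∈ LL a b, ∀ q ∈ LL a b, n₀ ≤ p.1 → p.1 < q.1 →
      (2 : ℝ) ^ (lam * (p.1 : ℝ)) ≤ lam * q.1) := by
  have hB : 0 < log b := log_pos hb
  have hs := sqrt_gt ha
  have hl2 : 0 < log 2 := log_pos (by norm_num)
  obtain ⟨n₁, -, hnear⟩ := nearS ha hb
  obtain ⟨n₂, hstr⟩ := structureS ha hb
  obtain ⟨n₃, hsm⟩ := eventually_small ha (B := log b / 2) (by positivity)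
  set μ := log (√a) with hμ
  have hμ0 : 0 < μ := log_pos hs
  set lam : ℝ := min 1 (μ / (2 * log 2)) with hlam
  have hlam0 : 0 < lam := lt_min one_pos (by positivity)
  have hlam1 : lam ≤ 1 := min_le_left _ _
  have hlam2 : lam * log 2 ≤ μ / 2 := by
    have h1 : lam ≤ μ / (2 * log 2) := min_le_right _ _
    calc lam * log 2 ≤ μ / (2 * log 2) * log 2 := mul_le_mul_of_nonneg_right h1 hl2.le
      _ = μ / 2 := by field_simp
  set c := log b / 4 with hc
  have hc0 : 0 < c := by positivity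
  obtain ⟨n₄, hn₄⟩ := exists_nat_ge (2 / (μ * (lam * c)))
  obtain ⟨n₅, hn₅⟩ := exists_nat_ge (1 / lam)
  refine ⟨max (max (max n₁ n₂) (max n₃ n₄)) (max n₅ 1), lam, ?_, hlam0, hlam1, ?_, ?_, ?_, ?_⟩
  · exact (le_max_right _ _).trans (le_max_right _ _)
  · have h1 : (n₅ : ℝ) ≤ ((max (max (max n₁ n₂) (max n₃ n₄)) (max n₅ 1) : ℕ) : ℝ) := by
      exact_mod_cast (le_max_left _ _).trans (le_max_right _ _)
    have h2 : 1 / lam ≤ ((max (max (max n₁ n₂) (max n₃ n₄)) (max n₅ 1) : ℕ) : ℝ) := hn₅.trans h1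
    rw [div_le_iff₀ hlam0] at h2
    linarith
  · intro p hp q hq hn hpq
    have hn1 : n₁ ≤ p.1 :=
      (((le_max_left _ _).trans (le_max_left _ _)).trans (le_max_left _ _)).trans hn
    obtain ⟨h1, h2⟩ := hnear p (LL_sub hp) hn1
    obtain ⟨h3, h4⟩ := hnear q (LL_sub hq) (by omega)
    have hS : 0 < √a ^ p.1 := by positivity
    have hp1 : (1 : ℝ) ≤ p.1 := by exact_mod_cast hp.1
    have h5 : 2 / log b / √a ^ p.1 < 1 / 2 := by
      rw [div_div, div_lt_div_iff₀ (by positivity) (by norm_num)]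
      linarith
    rw [← hpq] at h4
    have h6 : |(p.2 : ℝ) - q.2| < 1 := by
      have e : (p.2 : ℝ) - q.2 = ((p.1 : ℝ) * (log a / log b) - q.2) -
          ((p.1 : ℝ) * (log a / log b) - p.2) := by ring
      rw [e]
      refine lt_of_le_of_lt (abs_sub _ _) ?_
      linarith
    have h7 : |(p.2 : ℤ) - q.2| < 1 := by exact_mod_cast h6
    rw [Int.abs_lt_one_iff] at h7
    exact Prod.ext hpq (by omega)
  · intro p hp q hq hn hpq
    have hn2 : n₂ ≤ p.1 :=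
      (((le_max_right _ _).trans (le_max_left _ _)).trans (le_max_left _ _)).trans hn
    have hn3 : n₃ ≤ p.1 :=
      (((le_max_left _ _).trans (le_max_right _ _)).trans (le_max_left _ _)).trans hn
    have h1 := (hstr p (LL_sub hp) hn2).2 q (LL_sub hq) hpq
    have h2 := hsm p.1 hn3
    have hS : 0 < √a ^ p.1 := by positivity
    rw [div_lt_iff₀ hS] at h2
    have h4 : log b / 2 * √a ^ p.1 = 2 * (c * √a ^ p.1) := by rw [hc]; ring
    have h3 : (2 * p.1 : ℝ) ≤ q.1 := by linarith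
    exact_mod_cast h3
  · intro p hp q hq hn hpq
    have hn2 : n₂ ≤ p.1 :=
      (((le_max_right _ _).trans (le_max_left _ _)).trans (le_max_left _ _)).trans hn
    have hn4 : n₄ ≤ p.1 :=
      (((le_max_right _ _).trans (le_max_right _ _)).trans (le_max_left _ _)).trans hn
    have h1 := (hstr p (LL_sub hp) hn2).2 q (LL_sub hq) hpq
    have hp4 : (2 / (μ * (lam * c)) : ℝ) ≤ p.1 := hn₄.trans (by exact_mod_cast hn4)
    have e1 : √a ^ p.1 = Real.exp (μ * p.1) := by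
      rw [mul_comm, Real.exp_nat_mul, hμ, Real.exp_log (by positivity)]
    have e2 : (2 : ℝ) ^ (lam * (p.1 : ℝ)) = Real.exp (lam * log 2 * p.1) := by
      rw [Real.rpow_def_of_pos (by norm_num)]
      congr 1
      ring
    have h3 : (2 : ℝ) ^ (lam * (p.1 : ℝ)) ≤ Real.exp (μ / 2 * p.1) := by
      rw [e2]
      apply Real.exp_le_exp.2
      exact mul_le_mul_of_nonneg_right hlam2 (Nat.cast_nonneg _)
    have h4 : 1 ≤ lam * c * Real.exp (μ / 2 * p.1) := by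
      have h5 : μ / 2 * p.1 ≤ Real.exp (μ / 2 * p.1) := by
        have := Real.add_one_le_exp (μ / 2 * (p.1 : ℝ))
        linarith
      have h6 : 1 ≤ lam * c * (μ / 2 * p.1) := by
        rw [div_le_iff₀ (by positivity)] at hp4
        nlinarith
      exact h6.trans (mul_le_mul_of_nonneg_left h5 (by positivity))
    have h7 : Real.exp (μ / 2 * p.1) ≤ lam * (c * √a ^ p.1) := by
      rw [e1]
      have e3 : Real.exp (μ * p.1) = Real.exp (μ / 2 * p.1) * Real.exp (μ / 2 * p.1) := by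
        rw [← Real.exp_add]
        congr 1
        ring
      rw [e3]
      have h8 : 0 < Real.exp (μ / 2 * p.1) := Real.exp_pos _
      calc Real.exp (μ / 2 * p.1) = 1 * Real.exp (μ / 2 * p.1) := (one_mul _).symm
        _ ≤ (lam * c * Real.exp (μ / 2 * p.1)) * Real.exp (μ / 2 * p.1) :=
            mul_le_mul_of_nonneg_right h4 h8.le
        _ = _ := by ring
    exact h3.trans (h7.trans (mul_le_mul_of_nonneg_left h1 hlam0.le))

/-- tower of twos -/
def tow : ℕ → ℕ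
  | 0 => 1
  | h + 1 => 2 ^ tow h

theorem thin_aux {n₀ : ℕ} {lam : ℝ} (hln : 1 ≤ lam * n₀) (hlam : 0 < lam)
    (h1 : ∀ p ∈ LL a b, ∀ q ∈ LL a b, n₀ ≤ p.1 → p.1 = q.1 → p = q)
    (h3 : ∀ p ∈ LL a b, ∀ q ∈ LL a b, n₀ ≤ p.1 → p.1 < q.1 →
      (2 : ℝ) ^ (lam * (p.1 : ℝ)) ≤ lam * q.1) :
    ∀ (h : ℕ) (F : Finset (ℕ × ℕ)),
      (∀ l ∈ F, l ∈ LL a b ∧ n₀ ≤ l.1 ∧ lam * l.1 < tow h) → F.card ≤ h := by
  classical
  intro h
  induction h with
  | zero =>
    intro F hF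
    rw [Nat.le_zero, Finset.card_eq_zero, Finset.eq_empty_iff_forall_notMem]
    intro l hl
    obtain ⟨-, h4, h5⟩ := hF l hl
    have h6 : (n₀ : ℝ) ≤ l.1 := by exact_mod_cast h4
    have h7 : lam * n₀ ≤ lam * l.1 := mul_le_mul_of_nonneg_left h6 hlam.le
    have h8 : ((tow 0 : ℕ) : ℝ) = 1 := by simp [tow]
    rw [h8] at h5
    linarith
  | succ h ih =>
    intro F hF
    have h4 := Finset.card_filter_add_card_filter_not (s := F)
      (fun l => lam * (l.1 : ℝ) < tow h)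
    have h5 := ih (F.filter fun l => lam * (l.1 : ℝ) < tow h) (by
      intro l hl
      rw [Finset.mem_filter] at hl
      exact ⟨(hF l hl.1).1, (hF l hl.1).2.1, hl.2⟩)
    have h6 : (F.filter fun l => ¬ lam * (l.1 : ℝ) < tow h).card ≤ 1 := by
      rw [Finset.card_le_one]
      have key : ∀ p ∈ F.filter (fun l => ¬ lam * (l.1 : ℝ) < tow h),
          ∀ q ∈ F.filter (fun l => ¬ lam * (l.1 : ℝ) < tow h), ¬ p.1 < q.1 := by
        intro p hp q hq hpq
        rw [Finset.mem_filter] at hp hq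
        obtain ⟨a1, a2, a3⟩ := hF p hp.1
        obtain ⟨b1, b2, b3⟩ := hF q hq.1
        have h7 := h3 p a1 q b1 a2 hpq
        have h8 : ((tow (h + 1) : ℕ) : ℝ) = (2 : ℝ) ^ ((tow h : ℕ) : ℝ) := by
          rw [Real.rpow_natCast]
          simp [tow]
        rw [h8] at b3
        have h9 : (tow h : ℝ) ≤ lam * p.1 := not_lt.1 hp.2
        have h10 : (2 : ℝ) ^ ((tow h : ℕ) : ℝ) ≤ (2 : ℝ) ^ (lam * (p.1 : ℝ)) :=
          Real.rpow_le_rpow_of_exponent_le (by norm_num) h9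
        linarith
      intro p hp q hq
      have hp' := hp
      rw [Finset.mem_filter] at hp hq
      exact h1 p (hF p hp.1).1 q (hF q hq.1).1 (hF p hp.1).2.1
        (le_antisymm (not_lt.1 (key q (Finset.mem_filter.2 hq) p hp'))
          (not_lt.1 (key p hp' q (Finset.mem_filter.2 hq))))
    omega

theorem thin (ha : 1 < a) (hb : 1 < b) : ∃ C : ℕ, ∀ h : ℕ,
    {l | l ∈ LL a b ∧ l.1 ≤ tow h}.ncard ≤ h + C := by
  classical
  obtain ⟨n₀, lam, hn₀, hlam, hlam1, hln, g1, g2, g3⟩ := gaps ha hb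
  have hF0 := LL_fin ha hb n₀
  refine ⟨hF0.toFinset.card + 1, fun h => ?_⟩
  have hF := LL_fin ha hb (tow h)
  rw [Set.ncard_eq_toFinset_card _ hF]
  have h4 := Finset.card_filter_add_card_filter_not (s := hF.toFinset) (fun l => n₀ ≤ l.1)
  have h5 := thin_aux (a := a) (b := b) hln hlam g1 g3 (h + 1)
    (hF.toFinset.filter fun l => n₀ ≤ l.1) (by
    intro l hl
    rw [Finset.mem_filter, Set.Finite.mem_toFinset] at hl
    refine ⟨hl.1.1, hl.2, ?_⟩
    have h6 : (l.1 : ℝ) ≤ tow h := by exact_mod_cast hl.1.2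
    have h7 : (tow h : ℝ) < tow (h + 1) := by
      have : tow h < tow (h + 1) := Nat.lt_two_pow_self
      exact_mod_cast this
    have h8 : lam * (l.1 : ℝ) ≤ 1 * l.1 := mul_le_mul_of_nonneg_right hlam1 (Nat.cast_nonneg _)
    linarith)
  have h6 : (hF.toFinset.filter fun l => ¬ n₀ ≤ l.1).card ≤ hF0.toFinset.card := by
    apply Finset.card_le_card
    intro l hl
    rw [Finset.mem_filter, Set.Finite.mem_toFinset] at hl
    rw [Set.Finite.mem_toFinset]
    exact ⟨hl.1.1, by omega⟩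
  omega

theorem sum_inv (n : ℕ) : ∀ (G : Finset ℕ) (m : ℕ), G.card = n → 1 ≤ m → (∀ p ∈ G, m ≤ p) →
    (∀ p ∈ G, ∀ q ∈ G, p < q → 2 * p ≤ q) → ∑ p ∈ G, (1 : ℝ) / p ≤ 2 / m := by
  induction n with
  | zero =>
    intro G m hG hm _ _
    rw [Finset.card_eq_zero.1 hG, Finset.sum_empty]
    positivity
  | succ n ih =>
    intro G m hG hm hGm hG2
    have hne : G.Nonempty := by
      rw [← Finset.card_pos]
      omega
    set k := G.min' hne with hk
    have hkG : k ∈ G := G.min'_mem hne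
    have hmk : m ≤ k := hGm k hkG
    have h1 : ∑ p ∈ G.erase k, (1 : ℝ) / p ≤ 2 / ((2 * k : ℕ) : ℝ) := by
      apply ih (G.erase k) (2 * k)
      · rw [Finset.card_erase_of_mem hkG]
        omega
      · omega
      · intro p hp
        rw [Finset.mem_erase] at hp
        exact hG2 k hkG p hp.2 (lt_of_le_of_ne (G.min'_le p hp.2) (Ne.symm hp.1))
      · intro p hp q hq hpq
        exact hG2 p (Finset.mem_of_mem_erase hp) q (Finset.mem_of_mem_erase hq) hpq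
    rw [← Finset.add_sum_erase G _ hkG]
    have hm0 : (0 : ℝ) < m := by exact_mod_cast hm
    have hmk' : (m : ℝ) ≤ k := by exact_mod_cast hmk
    have hk0 : (0 : ℝ) < k := by linarith
    have h2 : (2 : ℝ) / ((2 * k : ℕ) : ℝ) = 1 / k := by
      push_cast
      field_simp
    rw [h2] at h1
    have h3 : (2 : ℝ) / k ≤ 2 / m := div_le_div_of_nonneg_left (by norm_num) hm0 hmk'
    have h4 : (1 : ℝ) / k + 1 / k = 2 / k := by ring
    linarith

/-- the reciprocals of the first coordinates -/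
theorem sum_LL (ha : 1 < a) (hb : 1 < b) : ∃ C : ℝ, 0 ≤ C ∧ ∀ F : Finset (ℕ × ℕ),
    (∀ l ∈ F, l ∈ LL a b) → ∑ l ∈ F, (1 : ℝ) / l.1 ≤ C := by
  classical
  obtain ⟨n₀, lam, hn₀, hlam, hlam1, hln, g1, g2, g3⟩ := gaps ha hb
  have hF0 := LL_fin ha hb n₀
  refine ⟨2 + hF0.toFinset.card, by positivity, fun F hF => ?_⟩
  rw [← Finset.sum_filter_add_sum_filter_not F (fun l => n₀ ≤ l.1)]
  apply add_le_add
  · have h1 : ∑ l ∈ F.filter (fun l => n₀ ≤ l.1), (1 : ℝ) / l.1 =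
        ∑ p ∈ (F.filter (fun l => n₀ ≤ l.1)).image Prod.fst, (1 : ℝ) / p := by
      rw [Finset.sum_image]
      intro p hp q hq hpq
      rw [Finset.mem_coe, Finset.mem_filter] at hp hq
      exact g1 p (hF p hp.1) q (hF q hq.1) hp.2 hpq
    rw [h1]
    have h2 := sum_inv _ ((F.filter (fun l => n₀ ≤ l.1)).image Prod.fst) 1 rfl le_rfl (by
      intro p hp
      obtain ⟨l, hl, rfl⟩ := Finset.mem_image.1 hp
      exact (hF l (Finset.mem_filter.1 hl).1).1) (by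
      intro p hp q hq hpq
      obtain ⟨l, hl, rfl⟩ := Finset.mem_image.1 hp
      obtain ⟨k, hk, rfl⟩ := Finset.mem_image.1 hq
      rw [Finset.mem_filter] at hl hk
      exact g2 l (hF l hl.1) k (hF k hk.1) hl.2 hpq)
    simpa using h2
  · have h1 : ∑ l ∈ F.filter (fun l => ¬ n₀ ≤ l.1), (1 : ℝ) / l.1 ≤
        ∑ l ∈ F.filter (fun l => ¬ n₀ ≤ l.1), (1 : ℝ) := by
      refine Finset.sum_le_sum fun l hl => ?_
      have : (1 : ℝ) ≤ l.1 := by exact_mod_cast (hF l (Finset.mem_filter.1 hl).1).1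
      rw [div_le_one (by linarith)]
      exact this
    refine h1.trans ?_
    rw [Finset.sum_const, nsmul_eq_mul, mul_one]
    have h2 : (F.filter fun l => ¬ n₀ ≤ l.1).card ≤ hF0.toFinset.card := by
      apply Finset.card_le_card
      intro l hl
      rw [Finset.mem_filter] at hl
      rw [Set.Finite.mem_toFinset]
      exact ⟨hF l hl.1, by omega⟩
    exact_mod_cast h2

/-- few elements of `NB` on the lines -/
theorem on_count (ha : 1 < a) (hb : 1 < b) : ∃ C : ℝ, 0 ≤ C ∧ ∀ x : ℝ, 2 ≤ x →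
    ((NB a b x ∩ {p | On (LL a b) p}).ncard : ℝ) ≤ C * log x := by
  classical
  have hA : 0 < log a := log_pos ha
  have hl2 : 0 < log 2 := log_pos (by norm_num)
  obtain ⟨C, hC0, hC⟩ := sum_LL ha hb
  refine ⟨1 / log 2 + 2 / log a * C, by positivity, fun x hx => ?_⟩
  have hx0 : 0 < x := by linarith
  have hlx : log 2 ≤ log x := Real.log_le_log (by norm_num) hx
  have hlx0 : 0 < log x := by linarith
  set M : ℕ := ⌊2 * log x / log a⌋₊ with hM
  have hMle : (M : ℝ) ≤ 2 * log x / log a := Nat.floor_le (by positivity)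
  have hF := LL_fin ha hb M
  set G : Finset (Σ _ : ℕ × ℕ, ℕ) := hF.toFinset.sigma fun l => Finset.Icc 1 (M / l.1) with hG
  have hsub : NB a b x ∩ {p | On (LL a b) p} ⊆
      (insert (0, 0) (G.image fun y => (y.2 * y.1.1, y.2 * y.1.2)) : Finset (ℕ × ℕ)) := by
    rintro p ⟨⟨-, hp⟩, l, hl, g, rfl⟩
    rw [Finset.mem_coe, Finset.mem_insert]
    rcases Nat.eq_zero_or_pos g with hg | hg
    · left
      rw [hg, zero_mul, zero_mul]
    · right
      have h1 := (pow_le_iff_log ha (by positivity) _).1 hp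
      rw [Real.log_pow] at h1
      have h2 : g * l.1 ≤ M := by
        rw [hM, Nat.le_floor_iff (by positivity)]
        exact_mod_cast h1
      have hl1 : 1 ≤ l.1 := hl.1
      rw [Finset.mem_image]
      refine ⟨⟨l, g⟩, ?_, rfl⟩
      rw [hG, Finset.mem_sigma, Set.Finite.mem_toFinset, Finset.mem_Icc]
      refine ⟨⟨hl, ?_⟩, hg, ?_⟩
      · exact (Nat.le_mul_of_pos_left _ hg).trans h2
      · exact (Nat.le_div_iff_mul_le (Nat.lt_of_lt_of_le Nat.zero_lt_one hl1)).2 h2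
  have h1 : (NB a b x ∩ {p | On (LL a b) p}).ncard ≤ G.card + 1 := by
    refine (Set.ncard_le_ncard hsub (Finset.finite_toSet _)).trans ?_
    rw [Set.ncard_coe_finset]
    exact (Finset.card_insert_le _ _).trans (Nat.add_le_add_right Finset.card_image_le 1)
  have h2 : (G.card : ℝ) ≤ M * C := by
    rw [hG, Finset.card_sigma]
    push_cast
    calc ∑ l ∈ hF.toFinset, ((Finset.Icc 1 (M / l.1)).card : ℝ)
        ≤ ∑ l ∈ hF.toFinset, (M : ℝ) * (1 / l.1) := by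
          refine Finset.sum_le_sum fun l _ => ?_
          rw [Nat.card_Icc, Nat.add_sub_cancel, mul_one_div]
          exact Nat.cast_div_le
      _ = M * ∑ l ∈ hF.toFinset, (1 : ℝ) / l.1 := by rw [Finset.mul_sum]
      _ ≤ M * C := by
          apply mul_le_mul_of_nonneg_left _ (Nat.cast_nonneg _)
          apply hC
          intro l hl
          exact ((Set.Finite.mem_toFinset hF).1 hl).1
  have h3 : (((NB a b x ∩ {p | On (LL a b) p}).ncard : ℕ) : ℝ) ≤ G.card + 1 := by exact_mod_cast h1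
  have h4 : (1 : ℝ) ≤ 1 / log 2 * log x := by
    rw [div_mul_eq_mul_div, le_div_iff₀ hl2]
    linarith
  have h5 : (M : ℝ) * C ≤ 2 * log x / log a * C := mul_le_mul_of_nonneg_right hMle hC0
  have h6 : (1 / log 2 + 2 / log a * C) * log x = 1 / log 2 * log x + 2 * log x / log a * C := by
    ring
  rw [h6]
  linarith

/-- **Main theorem.** -/
theorem off_count (ha : 1 < a) (hb : 1 < b) : ∃ C : ℝ, 0 ≤ C ∧ ∀ x : ℝ, 2 ≤ x →
    {p : ℕ × ℕ | |a ^ p.1 - b ^ p.2| ≤ x ∧ ¬ On (LL a b) p}.Finite ∧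
    |(({p : ℕ × ℕ | |a ^ p.1 - b ^ p.2| ≤ x ∧ ¬ On (LL a b) p}.ncard : ℕ) : ℝ) -
      log x ^ 2 / (log a * log b)| ≤ C * log x := by
  obtain ⟨C₁, hC₁0, hC₁⟩ := NB_count ha hb
  obtain ⟨C₂, hC₂0, hC₂⟩ := on_count ha hb
  refine ⟨C₁ + C₂, by positivity, fun x hx => ?_⟩
  obtain ⟨h1, h2⟩ := hC₁ x hx
  have h3 := hC₂ x hx
  have e : {p : ℕ × ℕ | |a ^ p.1 - b ^ p.2| ≤ x ∧ ¬ On (LL a b) p} =
      NB a b x \ {p | On (LL a b) p} := by
    ext p
    simp only [mem_ofPred_eq, Set.mem_sdiff, NB]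
    constructor
    · rintro ⟨h4, h5⟩
      refine ⟨⟨h4, ?_⟩, h5⟩
      by_contra h6
      exact h5 (on_of_large ha hb hx h4 (not_le.1 h6))
    · rintro ⟨⟨h4, -⟩, h5⟩
      exact ⟨h4, h5⟩
  rw [e]
  refine ⟨h1.subset Set.sdiff_subset, ?_⟩
  have h4 := Set.ncard_inter_add_ncard_sdiff_eq_ncard (NB a b x) {p | On (LL a b) p} h1
  have h5 : (((NB a b x ∩ {p | On (LL a b) p}).ncard : ℕ) : ℝ) +
      (((NB a b x \ {p | On (LL a b) p}).ncard : ℕ) : ℝ) = ((NB a b x).ncard : ℝ) := by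
    exact_mod_cast h4
  have h6 : (0 : ℝ) ≤ (((NB a b x ∩ {p | On (LL a b) p}).ncard : ℕ) : ℝ) := Nat.cast_nonneg _
  have hlx0 : 0 < log x := log_pos (by linarith)
  rw [abs_le] at *
  constructor <;> nlinarith [h2.1, h2.2]

end Pool.Agent.TH709.NC
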